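import Pool.Agent.Y422.TW.Upper

/-!
# The lower bound

Lexicographic powers of random graphs.
-/

namespace Pool.Agent.Y422.TW

open Finset Real

open Classical

attribute [-instance] instDecidableEqProd

variable {V W : Type*}

/-- Every part has at most `t` non-homogeneous other parts. -/
def Good (G : SimpleGraph V) (t : ℕ) (Q : Finset (Finset V)) : Prop :=
  ∀ A ∈ Q, (Q.filter (fun B => B ≠ A ∧ ¬ Homog G A B)).card ≤ t

theorem card_reach [Fintype V] (G : SimpleGraph V) (t : ℕ) (n : ℕ) :
    ∀ P : Finset (Finset V), P.card = n → P.Nonempty → P.card ≤ t + 2 →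
      (∀ v, ∃ A ∈ P, v ∈ A) → Relation.ReflTransGen (Contract G t) P {Finset.univ} := by
  induction n using Nat.strong_induction_on with
  | _ n ih =>
    intro P hPn hne hPt hcov
    by_cases h1 : P.card ≤ 1
    · have h2 : P.card = 1 := le_antisymm h1 (card_pos.2 hne)
      obtain ⟨A, rfl⟩ := card_eq_one.1 h2
      have : A = Finset.univ := by
        rw [eq_univ_iff_forall]
        intro v
        obtain ⟨X, hX, hv⟩ := hcov v
        rwa [mem_singleton.1 hX] at hv
      rw [this]
    · push Not at h1
      obtain ⟨A, hA, B, hB, hAB⟩ := Finset.one_lt_card.1 h1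
      set Q := insert (A ∪ B) ((P.erase A).erase B) with hQ
      have hcard : Q.card + 1 ≤ P.card := by
        have e1 : ((P.erase A).erase B).card = P.card - 1 - 1 := by
          rw [card_erase_of_mem (mem_erase.2 ⟨hAB.symm, hB⟩), card_erase_of_mem hA]
        have e2 := card_insert_le (A ∪ B) ((P.erase A).erase B)
        rw [← hQ] at e2
        omega
      have hstep : Contract G t P Q := by
        refine ⟨⟨A, hA, B, hB, hAB, rfl⟩, ?_⟩
        intro X hX
        have e3 : (Q.filter (fun B => B ≠ X ∧ ¬ Homog G X B)).card ≤ (Q.erase X).card := by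
          apply card_le_card
          intro Y hY
          obtain ⟨h3, h4, -⟩ := mem_filter.1 hY
          exact mem_erase.2 ⟨h4, h3⟩
        rw [card_erase_of_mem hX] at e3
        omega
      refine Relation.ReflTransGen.head hstep (ih Q.card (by omega) Q rfl ⟨_, mem_insert_self _ _⟩
        (by omega) ?_)
      intro v
      obtain ⟨X, hX, hv⟩ := hcov v
      by_cases h1 : X = A
      · exact ⟨A ∪ B, mem_insert_self _ _, mem_union_left _ (h1 ▸ hv)⟩
      · by_cases h2 : X = B
        · exact ⟨A ∪ B, mem_insert_self _ _, mem_union_right _ (h2 ▸ hv)⟩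
        · exact ⟨X, mem_insert_of_mem (mem_erase.2 ⟨h2, mem_erase.2 ⟨h1, hX⟩⟩), hv⟩

/-- The lexicographic product. -/
def lex (G : SimpleGraph V) (H : SimpleGraph W) : SimpleGraph (V × W) where
  Adj x y := G.Adj x.1 y.1 ∨ (x.1 = y.1 ∧ H.Adj x.2 y.2)
  symm := ⟨by
    rintro x y (h | ⟨h1, h2⟩)
    · exact Or.inl h.symm
    · exact Or.inr ⟨h1.symm, h2.symm⟩⟩
  loopless := ⟨by
    rintro x (h | ⟨-, h⟩)
    · exact G.loopless.irrefl _ h
    · exact H.loopless.irrefl _ h⟩

theorem lex_compl (G : SimpleGraph V) (H : SimpleGraph W) : (lex G H)ᶜ = lex Gᶜ Hᶜ := by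
  ext x y
  rw [SimpleGraph.compl_adj]
  show (x ≠ y ∧ ¬ (G.Adj x.1 y.1 ∨ (x.1 = y.1 ∧ H.Adj x.2 y.2))) ↔
    (Gᶜ.Adj x.1 y.1 ∨ (x.1 = y.1 ∧ Hᶜ.Adj x.2 y.2))
  rw [SimpleGraph.compl_adj, SimpleGraph.compl_adj]
  have hloop : x.1 = y.1 → ¬ G.Adj x.1 y.1 := by
    intro h hh
    rw [h] at hh
    exact G.loopless.irrefl _ hh
  have hne : x ≠ y ↔ (x.1 ≠ y.1 ∨ x.2 ≠ y.2) := by
    rw [Ne, Prod.ext_iff]
    tauto
  rw [hne]
  tauto

theorem lex_cliqueFree (G : SimpleGraph V) (H : SimpleGraph W) {a b : ℕ}
    (hG : G.CliqueFree (a + 1)) (hH : H.CliqueFree (b + 1)) :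
    (lex G H).CliqueFree (a * b + 1) := by
  intro S hS
  obtain ⟨hS1, hS2⟩ := hS
  have h1 : (S.image Prod.fst).card ≤ a := by
    have hc : G.IsClique ((S.image Prod.fst : Finset V) : Set V) := by
      intro x hx y hy hxy
      obtain ⟨p, hp, rfl⟩ := mem_image.1 hx
      obtain ⟨q, hq, rfl⟩ := mem_image.1 hy
      have hpq : p ≠ q := by
        rintro rfl
        exact hxy rfl
      rcases hS1 hp hq hpq with h | ⟨h, -⟩
      · exact h
      · exact absurd h hxy
    have := (le_w G (subset_refl _) hc).trans_lt (w_lt G hG _)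
    omega
  have h2 : ∀ v ∈ S.image Prod.fst, (S.filter (fun p => p.1 = v)).card ≤ b := by
    intro v _
    have hinj : Set.InjOn Prod.snd ((S.filter (fun p => p.1 = v) : Finset (V × W)) : Set (V × W)) := by
      intro p hp q hq hpq
      have e1 := (mem_filter.1 hp).2
      have e2 := (mem_filter.1 hq).2
      exact Prod.ext (e1.trans e2.symm) hpq
    rw [← card_image_of_injOn hinj]
    have hc : H.IsClique (((S.filter (fun p => p.1 = v)).image Prod.snd : Finset W) : Set W) := by
      intro x hx y hy hxy
      obtain ⟨p, hp, rfl⟩ := mem_image.1 hx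
      obtain ⟨q, hq, rfl⟩ := mem_image.1 hy
      have hpq : p ≠ q := by
        rintro rfl
        exact hxy rfl
      obtain ⟨hp1, hp2⟩ := mem_filter.1 hp
      obtain ⟨hq1, hq2⟩ := mem_filter.1 hq
      rcases hS1 hp1 hq1 hpq with h | ⟨-, h⟩
      · rw [hp2, hq2] at h
        exact absurd h (G.loopless.irrefl _)
      · exact h
    have := (le_w H (subset_refl _) hc).trans_lt (w_lt H hH _)
    omega
  have h3 := Finset.card_le_mul_card_image (f := Prod.fst) S b h2
  have h4 : b * (S.image Prod.fst).card ≤ b * a := Nat.mul_le_mul_left _ h1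
  rw [mul_comm b a] at h4
  omega

/-- A set in the copy of `W` over `v`. -/
def slab (v : V) (A : Finset W) : Finset (V × W) := {v} ×ˢ A

theorem mem_slab {v : V} {A : Finset W} {x : V × W} : x ∈ slab v A ↔ x.1 = v ∧ x.2 ∈ A := by
  rw [slab, mem_product, mem_singleton]

theorem slab_inj {v v' : V} {A A' : Finset W} (hA : A.Nonempty) (h : slab v A = slab v' A') :
    v = v' ∧ A = A' := by
  obtain ⟨a, ha⟩ := hA
  have h1 : (v, a) ∈ slab v' A' := by
    rw [← h]
    exact mem_slab.2 ⟨rfl, ha⟩
  have h2 : v = v' := (mem_slab.1 h1).1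
  refine ⟨h2, ?_⟩
  subst h2
  ext b
  have h3 : (v, b) ∈ slab v A ↔ (v, b) ∈ slab v A' := by rw [h]
  rw [mem_slab, mem_slab] at h3
  simpa using h3

theorem slab_union (v : V) (A B : Finset W) : slab v (A ∪ B) = slab v A ∪ slab v B := by
  ext x
  rw [mem_union, mem_slab, mem_slab, mem_slab, mem_union]
  tauto

theorem slab_nonempty {v : V} {A : Finset W} (h : A.Nonempty) : (slab v A).Nonempty := by
  obtain ⟨a, ha⟩ := h
  exact ⟨(v, a), mem_slab.2 ⟨rfl, ha⟩⟩

variable [Fintype V]

/-- The partition of `V × W` given by a partition of every copy of `W`. -/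
noncomputable def st (Q : V → Finset (Finset W)) : Finset (Finset (V × W)) :=
  Finset.univ.biUnion (fun v => (Q v).image (slab v))

theorem mem_st {Q : V → Finset (Finset W)} {X : Finset (V × W)} :
    X ∈ st Q ↔ ∃ v, ∃ A ∈ Q v, slab v A = X := by
  rw [st, mem_biUnion]
  constructor
  · rintro ⟨v, -, h⟩
    obtain ⟨A, hA, rfl⟩ := mem_image.1 h
    exact ⟨v, A, hA, rfl⟩
  · rintro ⟨v, A, hA, rfl⟩
    exact ⟨v, mem_univ _, mem_image.2 ⟨A, hA, rfl⟩⟩

theorem st_good (G : SimpleGraph V) (H : SimpleGraph W) (t : ℕ) (Q : V → Finset (Finset W))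
    (hgood : ∀ v, Good H t (Q v)) : Good (lex G H) t (st Q) := by
  intro X hX
  obtain ⟨v, A, hA, rfl⟩ := mem_st.1 hX
  have hsub : (st Q).filter (fun B => B ≠ slab v A ∧ ¬ Homog (lex G H) (slab v A) B) ⊆
      ((Q v).filter (fun B => B ≠ A ∧ ¬ Homog H A B)).image (slab v) := by
    intro Y hY
    obtain ⟨h1, h2, h3⟩ := mem_filter.1 hY
    obtain ⟨v', B, hB, rfl⟩ := mem_st.1 h1
    by_cases hv : v' = v
    · subst hv
      refine mem_image.2 ⟨B, mem_filter.2 ⟨hB, ?_, ?_⟩, rfl⟩
      · rintro rfl
        exact h2 rfl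
      · intro hh
        apply h3
        rcases hh with hh | hh
        · left
          intro x hx y hy
          obtain ⟨hx1, hx2⟩ := mem_slab.1 hx
          obtain ⟨hy1, hy2⟩ := mem_slab.1 hy
          exact Or.inr ⟨hx1.trans hy1.symm, hh _ hx2 _ hy2⟩
        · right
          intro x hx y hy
          obtain ⟨hx1, hx2⟩ := mem_slab.1 hx
          obtain ⟨hy1, hy2⟩ := mem_slab.1 hy
          rintro (h | ⟨-, h⟩)
          · rw [hx1, hy1] at h
            exact G.loopless.irrefl _ h
          · exact hh _ hx2 _ hy2 h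
    · exfalso
      apply h3
      by_cases ha : G.Adj v v'
      · left
        intro x hx y hy
        obtain ⟨hx1, hx2⟩ := mem_slab.1 hx
        obtain ⟨hy1, hy2⟩ := mem_slab.1 hy
        left
        rw [hx1, hy1]
        exact ha
      · right
        intro x hx y hy
        obtain ⟨hx1, hx2⟩ := mem_slab.1 hx
        obtain ⟨hy1, hy2⟩ := mem_slab.1 hy
        rintro (h | ⟨h, -⟩)
        · rw [hx1, hy1] at h
          exact ha h
        · rw [hx1, hy1] at h
          exact hv h.symm
  exact (card_le_card hsub).trans (card_image_le.trans (hgood v A hA))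

theorem st_update (Q : V → Finset (Finset W)) (hne : ∀ v, ∀ A ∈ Q v, A.Nonempty) (v0 : V)
    (A B : Finset W) (hA : A ∈ Q v0) (hB : B ∈ Q v0) :
    st (Function.update Q v0 (insert (A ∪ B) (((Q v0).erase A).erase B))) =
      insert (slab v0 A ∪ slab v0 B) (((st Q).erase (slab v0 A)).erase (slab v0 B)) := by
  ext X
  rw [mem_insert, mem_erase, mem_erase, mem_st, mem_st]
  constructor
  · rintro ⟨v, C, hC, rfl⟩
    by_cases hv : v = v0
    · subst hv
      rw [Function.update_self, mem_insert] at hC
      rcases hC with rfl | hC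
      · left
        exact slab_union _ _ _
      · right
        obtain ⟨h1, h2⟩ := mem_erase.1 hC
        obtain ⟨h3, h4⟩ := mem_erase.1 h2
        refine ⟨?_, ?_, v, C, h4, rfl⟩
        · intro h
          exact h1 (slab_inj (hne _ _ h4) h).2
        · intro h
          exact h3 (slab_inj (hne _ _ h4) h).2
    · rw [Function.update_of_ne hv] at hC
      right
      refine ⟨?_, ?_, v, C, hC, rfl⟩
      · intro h
        exact hv (slab_inj (hne _ _ hC) h).1
      · intro h
        exact hv (slab_inj (hne _ _ hC) h).1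
  · rintro (rfl | ⟨h1, h2, v, C, hC, rfl⟩)
    · refine ⟨v0, A ∪ B, ?_, slab_union _ _ _⟩
      rw [Function.update_self]
      exact mem_insert_self _ _
    · refine ⟨v, C, ?_, rfl⟩
      by_cases hv : v = v0
      · subst hv
        rw [Function.update_self]
        refine mem_insert_of_mem (mem_erase.2 ⟨?_, mem_erase.2 ⟨?_, hC⟩⟩)
        · rintro rfl
          exact h1 rfl
        · rintro rfl
          exact h2 rfl
      · rw [Function.update_of_ne hv]
        exact hC

theorem st_reach (G : SimpleGraph V) (H : SimpleGraph W) (t : ℕ) (Q : V → Finset (Finset W))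
    (hne : ∀ v, ∀ A ∈ Q v, A.Nonempty) (hgood : ∀ v, Good H t (Q v)) (v0 : V)
    (Q' : Finset (Finset W)) (h : Relation.ReflTransGen (Contract H t) (Q v0) Q') :
    Relation.ReflTransGen (Contract (lex G H) t) (st Q) (st (Function.update Q v0 Q')) ∧
      Good H t Q' ∧ ∀ A ∈ Q', A.Nonempty := by
  induction h with
  | refl =>
    rw [Function.update_eq_self]
    exact ⟨Relation.ReflTransGen.refl, hgood v0, hne v0⟩
  | @tail Q1 Q2 _ hstep ih =>
    obtain ⟨ih1, ih2, ih3⟩ := ih
    obtain ⟨⟨A, hA, B, hB, hAB, rfl⟩, hgood'⟩ := hstep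
    have hne' : ∀ v, ∀ A ∈ (Function.update Q v0 Q1) v, A.Nonempty := by
      intro v
      by_cases hv : v = v0
      · subst hv
        rw [Function.update_self]
        exact ih3
      · rw [Function.update_of_ne hv]
        exact hne v
    have hA' : A ∈ (Function.update Q v0 Q1) v0 := by
      rw [Function.update_self]
      exact hA
    have hB' : B ∈ (Function.update Q v0 Q1) v0 := by
      rw [Function.update_self]
      exact hB
    have hup := st_update (Function.update Q v0 Q1) hne' v0 A B hA' hB'
    rw [Function.update_idem, Function.update_self] at hup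
    refine ⟨ih1.tail ⟨⟨slab v0 A, mem_st.2 ⟨v0, A, hA', rfl⟩, slab v0 B, mem_st.2 ⟨v0, B, hB', rfl⟩,
      ?_, hup⟩, ?_⟩, hgood', ?_⟩
    · intro h
      exact hAB (slab_inj (ih3 A hA) h).2
    · apply st_good G H t
      intro v
      by_cases hv : v = v0
      · subst hv
        rw [Function.update_self]
        exact hgood'
      · rw [Function.update_of_ne hv]
        exact hgood v
    · intro X hX
      rcases mem_insert.1 hX with rfl | hX
      · exact (ih3 A hA).mono subset_union_left
      · exact ih3 X (mem_of_mem_erase (mem_of_mem_erase hX))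

theorem lex_twinWidth [Fintype W] (G : SimpleGraph V) (H : SimpleGraph W) (t : ℕ) [Nonempty V]
    (hV : Fintype.card V ≤ t + 2) (hH : TwinWidthLE H t) : TwinWidthLE (lex G H) t := by
  set sing : Finset (Finset W) := Finset.univ.image (fun w => {w}) with hsing
  have hsgood : Good H t sing := by
    intro A hA
    have : (filter (fun B => B ≠ A ∧ ¬ Homog H A B) sing) = ∅ := by
      rw [filter_eq_empty_iff]
      rintro B hB ⟨-, hh⟩
      obtain ⟨a, -, rfl⟩ := mem_image.1 hA
      obtain ⟨b, -, rfl⟩ := mem_image.1 hB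
      apply hh
      by_cases hab : H.Adj a b
      · left
        intro x hx y hy
        rw [mem_singleton.1 hx, mem_singleton.1 hy]
        exact hab
      · right
        intro x hx y hy
        rw [mem_singleton.1 hx, mem_singleton.1 hy]
        exact hab
    rw [this]
    simp
  have hsne : ∀ A ∈ sing, A.Nonempty := by
    intro A hA
    obtain ⟨a, -, rfl⟩ := mem_image.1 hA
    exact singleton_nonempty a
  have hsu := st_reach G H t (fun _ => sing) (fun _ => hsne) (fun _ => hsgood)
    (Classical.arbitrary V) {Finset.univ} hH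
  have hall : ∀ S : Finset V, Relation.ReflTransGen (Contract (lex G H) t)
      (st (fun _ : V => sing)) (st (fun v => if v ∈ S then {Finset.univ} else sing)) := by
    intro S
    induction S using Finset.induction_on with
    | empty =>
      have : (fun v : V => if v ∈ (∅ : Finset V) then {Finset.univ} else sing) = fun _ => sing := by
        funext v
        simp
      rw [this]
    | @insert a S ha ih =>
      refine ih.trans ?_
      have h1 := (st_reach G H t (fun v => if v ∈ S then {Finset.univ} else sing) ?_ ?_ a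
        {Finset.univ} ?_).1
      · have h2 : Function.update (fun v => if v ∈ S then {Finset.univ} else sing) a {Finset.univ}
            = fun v => if v ∈ insert a S then {Finset.univ} else sing := by
          funext v
          by_cases hv : v = a
          · subst hv
            rw [Function.update_self, if_pos (mem_insert_self _ _)]
          · rw [Function.update_of_ne hv]
            simp [hv]
        rw [h2] at h1
        exact h1
      · intro v
        show ∀ A ∈ (if v ∈ S then {Finset.univ} else sing), A.Nonempty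
        split_ifs
        · exact hsu.2.2
        · exact hsne
      · intro v
        show Good H t (if v ∈ S then {Finset.univ} else sing)
        split_ifs
        · exact hsu.2.1
        · exact hsgood
      · show Relation.ReflTransGen (Contract H t) (if a ∈ S then {Finset.univ} else sing) {Finset.univ}
        rw [if_neg ha]
        exact hH
  have h3 := hall Finset.univ
  have e1 : st (fun _ : V => sing) = Finset.univ.image (fun x : V × W => {x}) := by
    ext X
    rw [mem_st, mem_image]
    constructor
    · rintro ⟨v, A, hA, rfl⟩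
      obtain ⟨w, -, rfl⟩ := mem_image.1 hA
      refine ⟨(v, w), mem_univ _, ?_⟩
      ext x
      rw [mem_slab, mem_singleton, mem_singleton, Prod.ext_iff]
    · rintro ⟨x, -, rfl⟩
      refine ⟨x.1, {x.2}, mem_image.2 ⟨x.2, mem_univ _, rfl⟩, ?_⟩
      ext y
      rw [mem_slab, mem_singleton, mem_singleton, Prod.ext_iff]
  rw [e1] at h3
  refine Relation.ReflTransGen.trans h3 ?_
  have e2 : (st (fun v : V => if v ∈ (Finset.univ : Finset V) then {Finset.univ} else sing)) =
      Finset.univ.image (fun v : V => slab v (Finset.univ : Finset W)) := by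
    ext X
    rw [mem_st, mem_image]
    constructor
    · rintro ⟨v, A, hA, rfl⟩
      rw [if_pos (mem_univ v)] at hA
      rw [mem_singleton.1 hA]
      exact ⟨v, mem_univ _, rfl⟩
    · rintro ⟨v, -, rfl⟩
      refine ⟨v, Finset.univ, ?_, rfl⟩
      rw [if_pos (mem_univ v)]
      exact mem_singleton_self _
  rw [e2]
  apply card_reach _ _ _ _ rfl
  · exact ⟨slab (Classical.arbitrary V) Finset.univ, mem_image.2 ⟨_, mem_univ _, rfl⟩⟩
  · refine card_image_le.trans ?_
    rw [card_univ]
    exact hV
  · intro x
    exact ⟨slab x.1 Finset.univ, mem_image.2 ⟨x.1, mem_univ _, rfl⟩, mem_slab.2 ⟨rfl, mem_univ _⟩⟩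

theorem small_twinWidth [Nonempty V] (G : SimpleGraph V) (t : ℕ) (hV : Fintype.card V ≤ t + 2) :
    TwinWidthLE G t := by
  apply card_reach _ _ _ _ rfl
  · exact ⟨{Classical.arbitrary V}, mem_image.2 ⟨_, mem_univ _, rfl⟩⟩
  · refine card_image_le.trans ?_
    rw [card_univ]
    exact hV
  · intro v
    exact ⟨{v}, mem_image.2 ⟨v, mem_univ _, rfl⟩, mem_singleton_self v⟩

end Pool.Agent.Y422.TW
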