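import Pool.Agent.Y422.TW.Final

set_option autoImplicit false

/-!
# Exact asymptotics of the diagonal Ramsey numbers of graphs of bounded twin-width
-/

namespace Pool.Agent.Y422.TW

open Finset Real Filter Topology

theorem TwinWidthLE.mono {V : Type*} [Fintype V] {G : SimpleGraph V} {t t' : ℕ} (h : t ≤ t')
    (hG : TwinWidthLE G t) : TwinWidthLE G t' := by
  unfold TwinWidthLE at *
  have hle : Contract G t ≤ Contract G t' := by
    intro P Q hPQ
    exact ⟨hPQ.1, fun A hA => (hPQ.2 A hA).trans h⟩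
  exact Relation.ReflTransGen.mono hle _ _ hG

/-- the numbers of vertices of the graphs of twin-width at most `t` without clique and independent
set of size `k` -/
def SetTW (t k : ℕ) : Set ℕ :=
  {n : ℕ | ∃ (V : Type) (_ : Fintype V) (G : SimpleGraph V), Fintype.card V = n ∧
    TwinWidthLE G t ∧ G.CliqueFree k ∧ Gᶜ.CliqueFree k}

/-- the largest number of vertices of a graph of twin-width at most `t` without clique and
independent set of size `k` -/
noncomputable def NTW (t k : ℕ) : ℕ := sSup (SetTW t k)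

theorem SetTW_bdd (t k : ℕ) : BddAbove (SetTW t k) := by
  obtain ⟨C, _, h⟩ := upper 1 le_rfl
  refine ⟨⌊exp (C * (k : ℝ) ^ ((1 : ℝ) / (1 : ℕ)))⌋₊, ?_⟩
  rintro n ⟨V, hV, G, rfl, h1, h2, h3⟩
  apply Nat.le_floor
  have := h V G t k h1 h2 h3
  simpa using this

theorem tw_upper (i : ℕ) : ∃ C : ℝ, 0 < C ∧ ∀ t k : ℕ,
    (NTW t k : ℝ) ≤ (2 * ((t : ℝ) + 1)) ^ i * exp (C * (k : ℝ) ^ ((1 : ℝ) / ((i + 1 : ℕ) : ℝ))) := by
  obtain ⟨C, hC, h⟩ := upper (i + 1) (by omega)
  refine ⟨C, hC, ?_⟩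
  intro t k
  rcases Set.eq_empty_or_nonempty (SetTW t k) with he | hne
  · have : NTW t k = 0 := by
      unfold NTW
      rw [he]
      exact csSup_empty
    rw [this]
    push_cast
    positivity
  · obtain ⟨V, hV, G, hn, h1, h2, h3⟩ := Nat.sSup_mem hne (SetTW_bdd t k)
    have := h V G t k h1 h2 h3
    rw [hn] at this
    simpa [NTW] using this

theorem tw_lower (i : ℕ) (hi : 1 ≤ i) (t k : ℕ) (h : (2 * Nat.log 2 (t + 2) + 1) ^ i < k) :
    (2 ^ Nat.log 2 (t + 2)) ^ i ≤ NTW t k := by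
  set m := Nat.log 2 (t + 2) with hm
  have hm1 : 1 ≤ m := by
    rw [hm]
    exact Nat.log_pos (by norm_num) (by omega)
  obtain ⟨i, rfl⟩ : ∃ j, i = j + 1 := ⟨i - 1, by omega⟩
  obtain ⟨V, hV, G, g1, g2, g3, g4⟩ := power m hm1 i
  apply le_csSup (SetTW_bdd t k)
  refine ⟨V, hV, G, g1, g4.mono ?_, g2.mono (by omega), g3.mono (by omega)⟩
  have : 2 ^ m ≤ t + 2 := Nat.pow_log_le_self 2 (by omega)
  omega

/-- Passage to the limit. -/
theorem limit_aux (i : ℕ) (L N : ℕ → ℝ) (C D : ℝ) (e : ℕ → ℝ)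
    (h1 : Tendsto (fun k : ℕ => L k / (k : ℝ) ^ ((1 : ℝ) / ((i + 1 : ℕ) : ℝ))) atTop atTop)
    (hup : ∀ᶠ k in atTop, N k ≤ i * L k + D + C * (k : ℝ) ^ ((1 : ℝ) / ((i + 1 : ℕ) : ℝ)))
    (he : Tendsto (fun k => e k / L k) atTop (𝓝 0))
    (hlo : ∀ᶠ k in atTop, i * L k - D - e k ≤ N k) :
    Tendsto (fun k => N k / L k) atTop (𝓝 i) := by
  have hp : ∀ᶠ k : ℕ in atTop, 1 ≤ (k : ℝ) ^ ((1 : ℝ) / ((i + 1 : ℕ) : ℝ)) := by
    filter_upwards [eventually_ge_atTop 1] with k hk
    exact one_le_rpow (by exact_mod_cast hk) (by positivity)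
  have hL : Tendsto L atTop atTop := by
    apply tendsto_atTop_mono' _ _ h1
    filter_upwards [hp, h1.eventually_ge_atTop 1] with k hk h2
    have hk0 : 0 < (k : ℝ) ^ ((1 : ℝ) / ((i + 1 : ℕ) : ℝ)) := by linarith
    have h3 : 0 ≤ L k := by
      rw [le_div_iff₀ hk0] at h2
      linarith
    exact div_le_self h3 hk
  have hL0 : ∀ᶠ k in atTop, 0 < L k := hL.eventually_gt_atTop 0
  have hinv : Tendsto (fun k => D / L k) atTop (𝓝 0) := hL.const_div_atTop D
  have hq : Tendsto (fun k : ℕ => C * ((k : ℝ) ^ ((1 : ℝ) / ((i + 1 : ℕ) : ℝ)) / L k)) atTop (𝓝 0) := by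
    have h2 := (h1.inv_tendsto_atTop).const_mul C
    rw [mul_zero] at h2
    refine h2.congr ?_
    intro k
    simp [inv_div]
  have hu : Tendsto (fun k : ℕ => (i : ℝ) + D / L k +
      C * ((k : ℝ) ^ ((1 : ℝ) / ((i + 1 : ℕ) : ℝ)) / L k)) atTop (𝓝 i) := by
    have := (tendsto_const_nhds (x := (i : ℝ))).add hinv |>.add hq
    simpa using this
  have hl : Tendsto (fun k : ℕ => (i : ℝ) - D / L k - e k / L k) atTop (𝓝 i) := by
    have := (tendsto_const_nhds (x := (i : ℝ))).sub hinv |>.sub he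
    simpa using this
  refine tendsto_of_tendsto_of_tendsto_of_le_of_le' hl hu ?_ ?_
  · filter_upwards [hlo, hL0] with k h2 h3
    rw [le_div_iff₀ h3]
    have : ((i : ℝ) - D / L k - e k / L k) * L k = i * L k - D - e k := by field_simp
    linarith
  · filter_upwards [hup, hL0] with k h2 h3
    rw [div_le_iff₀ h3]
    have : ((i : ℝ) + D / L k + C * ((k : ℝ) ^ ((1 : ℝ) / ((i + 1 : ℕ) : ℝ)) / L k)) * L k
        = i * L k + D + C * (k : ℝ) ^ ((1 : ℝ) / ((i + 1 : ℕ) : ℝ)) := by field_simp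
    linarith

/-- **Exact asymptotics for twin-width.** -/
theorem tw_limit (i : ℕ) (hi : 1 ≤ i) (t : ℕ → ℕ)
    (h1 : Tendsto (fun k : ℕ => log (t k) / (k : ℝ) ^ ((1 : ℝ) / ((i + 1 : ℕ) : ℝ))) atTop atTop)
    (h2 : ∀ᶠ k : ℕ in atTop, (2 * Nat.log 2 (t k + 2) + 1) ^ i < k) :
    Tendsto (fun k : ℕ => log (NTW (t k) k) / log (t k)) atTop (𝓝 i) := by
  obtain ⟨C, hC, hup⟩ := tw_upper i
  have hpos : ∀ᶠ k : ℕ in atTop, 1 ≤ t k := by
    filter_upwards [h1.eventually_gt_atTop 0] with k hk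
    by_contra hcon
    have : t k = 0 := by omega
    rw [this] at hk
    simp at hk
  refine limit_aux i (fun k => log (t k)) (fun k => log (NTW (t k) k)) C (i * log 4) (fun _ => 0) h1
    ?_ (by simp) ?_
  · filter_upwards [hpos, h2] with k hk hk2
    have h3 := tw_lower i hi (t k) k hk2
    have hN : (0 : ℝ) < NTW (t k) k := by
      have : 0 < (2 ^ Nat.log 2 (t k + 2)) ^ i := by positivity
      exact_mod_cast lt_of_lt_of_le this h3
    have htR : (1 : ℝ) ≤ t k := by exact_mod_cast hk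
    have h4 := log_le_log hN (hup (t k) k)
    rw [log_mul (by positivity) (exp_pos _).ne', log_exp, log_pow] at h4
    have h5 : log (2 * ((t k : ℝ) + 1)) ≤ log 4 + log (t k) := by
      rw [← log_mul (by norm_num) (by positivity)]
      apply log_le_log (by positivity)
      linarith
    have h6 := mul_le_mul_of_nonneg_left h5 (Nat.cast_nonneg (α := ℝ) i)
    linarith
  · filter_upwards [hpos, h2] with k hk hk2
    have h3 := tw_lower i hi (t k) k hk2
    have htR : (1 : ℝ) ≤ t k := by exact_mod_cast hk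
    have h4 : t k + 2 < 2 ^ (Nat.log 2 (t k + 2) + 1) := Nat.lt_pow_succ_log_self (by norm_num) _
    have h5 : (t k : ℝ) ≤ 4 * 2 ^ Nat.log 2 (t k + 2) := by
      have : t k ≤ 4 * 2 ^ Nat.log 2 (t k + 2) := by
        rw [pow_succ] at h4
        omega
      exact_mod_cast this
    have h6 : ((2 : ℝ) ^ Nat.log 2 (t k + 2)) ^ i ≤ NTW (t k) k := by exact_mod_cast h3
    have h7 := log_le_log (by positivity) h6
    rw [log_pow] at h7
    have h8 : log (t k) ≤ log 4 + log (2 ^ Nat.log 2 (t k + 2)) := by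
      rw [← log_mul (by norm_num) (by positivity)]
      exact log_le_log (by positivity) h5
    have h9 := mul_le_mul_of_nonneg_left h8 (Nat.cast_nonneg (α := ℝ) i)
    linarith

/-- **Order of magnitude for `exp (k ^ ε) ≤ t ≤ exp k`.** -/
theorem tw_order (ε : ℝ) (hε : 0 < ε) : ∃ c C : ℝ, 0 < c ∧ 0 < C ∧ ∀ t k : ℕ, 4 ≤ k →
    (k : ℝ) ^ ε ≤ log t → log t ≤ k →
    c * log t ≤ log (NTW t k) ∧ log (NTW t k) ≤ C * log t := by
  set i : ℕ := ⌈1 / ε⌉₊ with hi
  have hiR : 1 / ε ≤ i := Nat.le_ceil _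
  obtain ⟨C, hC, hup⟩ := tw_upper i
  have hlog2 : 0 < log 2 := log_pos (by norm_num)
  have hlog2' : log 2 < 1 := by linarith [log_two_lt_d9]
  have hlog4 : 0 < log 4 := log_pos (by norm_num)
  refine ⟨log 2 / 8, i * (log 4 + 1) + C, by positivity, by positivity, ?_⟩
  intro t k hk h1 h2
  have hkR : (4 : ℝ) ≤ k := by exact_mod_cast hk
  have hke : (1 : ℝ) ≤ (k : ℝ) ^ ε := one_le_rpow (by linarith) hε.le
  have hlt : 1 ≤ log t := hke.trans h1
  have ht0 : (0 : ℝ) < t := by
    by_contra hcon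
    have : (t : ℝ) = 0 := le_antisymm (not_lt.1 hcon) (Nat.cast_nonneg t)
    rw [this, log_zero] at hlt
    linarith
  have ht1 : (2 : ℝ) ≤ t := by
    have h3 : exp 1 ≤ t := by
      rw [← exp_log ht0]
      exact exp_le_exp.2 hlt
    have h4 := add_one_le_exp (1 : ℝ)
    linarith
  have hlow : log 2 / 8 * log t ≤ log (NTW t k) := by
    by_cases hc : 2 * Nat.log 2 (t + 2) + 1 < k
    · have h3 := tw_lower 1 le_rfl t k (by simpa using hc)
      have h4 : t + 2 < 2 ^ (Nat.log 2 (t + 2) + 1) := Nat.lt_pow_succ_log_self (by norm_num) _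
      have h5 : ((t : ℝ) + 2) / 2 ≤ NTW t k := by
        have h6 : t + 2 ≤ 2 * NTW t k := by
          rw [pow_one] at h3
          rw [pow_succ] at h4
          omega
        have h7 : ((t + 2 : ℕ) : ℝ) ≤ ((2 * NTW t k : ℕ) : ℝ) := by exact_mod_cast h6
        push_cast at h7
        linarith
      have h8 : sqrt t ≤ ((t : ℝ) + 2) / 2 := by
        have := sq_sqrt ht0.le
        nlinarith [sq_nonneg (sqrt t - 1)]
      have h9 : log (sqrt t) ≤ log (NTW t k) := log_le_log (sqrt_pos.2 ht0) (h8.trans h5)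
      rw [log_sqrt ht0.le] at h9
      nlinarith
    · push Not at hc
      set m : ℕ := (k - 2) / 2 with hm
      have hm1 : 1 ≤ m := by omega
      obtain ⟨V, hV, G, g1, g2, g3, g4⟩ := power m hm1 0
      rw [zero_add, pow_one] at g1 g2 g3
      have hmle : m ≤ Nat.log 2 (t + 2) := by omega
      have h2m : 2 ^ m ≤ t + 2 :=
        (Nat.pow_le_pow_right (by norm_num) hmle).trans (Nat.pow_log_le_self 2 (by omega))
      have h3 : 2 ^ m ≤ NTW t k := by
        apply le_csSup (SetTW_bdd t k)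
        refine ⟨V, hV, G, g1, g4.mono (by omega), g2.mono (by omega), g3.mono (by omega)⟩
      have h4 : (2 : ℝ) ^ m ≤ NTW t k := by exact_mod_cast h3
      have h5 := log_le_log (by positivity) h4
      rw [log_pow] at h5
      have h6 : (k : ℝ) ≤ 8 * m := by
        have : k ≤ 8 * m := by omega
        exact_mod_cast this
      nlinarith
  refine ⟨hlow, ?_⟩
  have hN : (0 : ℝ) < NTW t k := by
    by_contra hcon
    have h3 : (NTW t k : ℝ) = 0 := le_antisymm (not_lt.1 hcon) (Nat.cast_nonneg _)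
    rw [h3, log_zero] at hlow
    have : 0 < log 2 / 8 * log t := by positivity
    linarith
  have h4 := log_le_log hN (hup t k)
  rw [log_mul (by positivity) (exp_pos _).ne', log_exp, log_pow] at h4
  have h5 : log (2 * ((t : ℝ) + 1)) ≤ log 4 + log t := by
    rw [← log_mul (by norm_num) (by positivity)]
    apply log_le_log (by positivity)
    linarith
  have h6 : (k : ℝ) ^ ((1 : ℝ) / ((i + 1 : ℕ) : ℝ)) ≤ log t := by
    refine le_trans (rpow_le_rpow_of_exponent_le (by linarith) ?_) h1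
    rw [div_le_iff₀ (by positivity)]
    rw [div_le_iff₀ hε] at hiR
    push_cast
    nlinarith
  have h7 := mul_le_mul_of_nonneg_left h5 (Nat.cast_nonneg (α := ℝ) i)
  have h8 := mul_le_mul_of_nonneg_left h6 hC.le
  have h9 : (i : ℝ) * log 4 ≤ i * log 4 * log t := by
    have : 0 ≤ (i : ℝ) * log 4 := by positivity
    nlinarith
  nlinarith

end Pool.Agent.Y422.TW
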