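import Pool.Agent.Y422.TW.Defs

/-!
# The upper bound

A graph on `n` vertices of twin-width at most `t` without clique and independent set of size `k`
has `n ≤ (2 (t + 1)) ^ (j - 1) * exp (C_j * k ^ (1 / j))` for every `j ≥ 1`.
-/

namespace Pool.Agent.Y422.TW

open Finset Real

open Classical

variable {V : Type*}

/-- The pair property with parameters `s` and `D`. -/
def PairProp (G : SimpleGraph V) (s D : ℝ) : Prop :=
  ∀ U : Finset V, s ≤ U.card → ∃ A R B : Finset V, A ⊆ U ∧ R ⊆ U ∧ B ⊆ U ∧ s ≤ A.card ∧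
    (∀ a ∈ A, ∀ r ∈ R, G.Adj a r) ∧ (∀ a ∈ A, ∀ b ∈ B, Gᶜ.Adj a b) ∧
    (U.card : ℝ) ≤ R.card + B.card + D

theorem PairProp.compl {G : SimpleGraph V} {s D : ℝ} (h : PairProp G s D) :
    PairProp Gᶜ s D := by
  intro U hU
  obtain ⟨A, R, B, h1, h2, h3, h4, h5, h6, h7⟩ := h U hU
  refine ⟨A, B, R, h1, h3, h2, h4, h6, ?_, by linarith⟩
  rw [compl_compl]
  exact h5

theorem pair_key [Fintype V] (G : SimpleGraph V) (t : ℕ) (s : ℝ) (hs : 1 ≤ s) (U : Finset V)
    (Q : Finset (Finset V)) (hcov : ∀ v, ∃ A ∈ Q, v ∈ A)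
    (hgood : ∀ A ∈ Q, (Q.filter (fun B => B ≠ A ∧ ¬ Homog G A B)).card ≤ t)
    (hsmall : ∀ A ∈ Q, ((A ∩ U).card : ℝ) ≤ 2 * s)
    (A' : Finset V) (hA' : A' ∈ Q) (hbig : s ≤ (A' ∩ U).card) :
    ∃ A R B : Finset V, A ⊆ U ∧ R ⊆ U ∧ B ⊆ U ∧ s ≤ A.card ∧
    (∀ a ∈ A, ∀ r ∈ R, G.Adj a r) ∧ (∀ a ∈ A, ∀ b ∈ B, Gᶜ.Adj a b) ∧
    (U.card : ℝ) ≤ R.card + B.card + 2 * s * (t + 1) := by
  set Red := Q.filter (fun B => B ≠ A' ∧ ¬ Homog G A' B) with hRed
  set R := U.filter (fun u => ∀ a ∈ A', G.Adj a u) with hR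
  set B := U.filter (fun u => ∀ a ∈ A', Gᶜ.Adj a u) with hB
  refine ⟨A' ∩ U, R, B, inter_subset_right, filter_subset _ _, filter_subset _ _, hbig, ?_, ?_, ?_⟩
  · intro a ha r hr
    exact (mem_filter.1 hr).2 a (mem_inter.1 ha).1
  · intro a ha b hb
    exact (mem_filter.1 hb).2 a (mem_inter.1 ha).1
  · have hsub : U ⊆ (R ∪ B) ∪ (insert A' Red).biUnion (fun X => X ∩ U) := by
      intro u hu
      by_cases huA : u ∈ A'
      · exact mem_union_right _ (mem_biUnion.2 ⟨A', mem_insert_self _ _, mem_inter.2 ⟨huA, hu⟩⟩)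
      · obtain ⟨X, hX, huX⟩ := hcov u
        have hXA : X ≠ A' := by
          rintro rfl
          exact huA huX
        by_cases hh : Homog G A' X
        · rcases hh with hh | hh
          · refine mem_union_left _ (mem_union_left _ (mem_filter.2 ⟨hu, fun a ha => hh a ha u huX⟩))
          · refine mem_union_left _ (mem_union_right _ (mem_filter.2 ⟨hu, fun a ha => ?_⟩))
            rw [SimpleGraph.compl_adj]
            refine ⟨?_, hh a ha u huX⟩
            rintro rfl
            exact huA ha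
        · refine mem_union_right _ (mem_biUnion.2 ⟨X, mem_insert_of_mem ?_, mem_inter.2 ⟨huX, hu⟩⟩)
          exact mem_filter.2 ⟨hX, hXA, hh⟩
    have h1 : U.card ≤ (R.card + B.card) + ∑ X ∈ insert A' Red, (X ∩ U).card :=
      calc U.card ≤ ((R ∪ B) ∪ (insert A' Red).biUnion (fun X => X ∩ U)).card := card_le_card hsub
        _ ≤ (R ∪ B).card + ((insert A' Red).biUnion (fun X => X ∩ U)).card := card_union_le _ _
        _ ≤ (R.card + B.card) + ∑ X ∈ insert A' Red, (X ∩ U).card :=
          add_le_add (card_union_le _ _) card_biUnion_le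
    have h2 : (∑ X ∈ insert A' Red, ((X ∩ U).card : ℝ)) ≤ (insert A' Red).card • (2 * s) := by
      refine sum_le_card_nsmul _ _ _ ?_
      intro X hX
      rcases mem_insert.1 hX with rfl | hX
      · exact hsmall _ hA'
      · exact hsmall _ (mem_filter.1 hX).1
    have h3 : ((insert A' Red).card : ℝ) ≤ t + 1 := by
      have := (card_insert_le A' Red).trans (Nat.add_le_add_right (hgood A' hA') 1)
      exact_mod_cast this
    have h4 : (U.card : ℝ) ≤ (R.card + B.card) + ∑ X ∈ insert A' Red, ((X ∩ U).card : ℝ) := by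
      exact_mod_cast h1
    rw [nsmul_eq_mul] at h2
    have h5 : ((insert A' Red).card : ℝ) * (2 * s) ≤ (t + 1) * (2 * s) :=
      mul_le_mul_of_nonneg_right h3 (by linarith)
    linarith

theorem pair_lemma [Fintype V] (G : SimpleGraph V) (t : ℕ) (h : TwinWidthLE G t) (s : ℝ)
    (hs : 1 ≤ s) : PairProp G s (2 * s * (t + 1)) := by
  intro U hU
  by_contra hno
  have key : ∀ Q, Relation.ReflTransGen (Contract G t) (Finset.univ.image (fun v => {v})) Q →
      (∀ v, ∃ A ∈ Q, v ∈ A) ∧ (∀ A ∈ Q, ((A ∩ U).card : ℝ) < s) := by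
    intro Q hQ
    induction hQ with
    | refl =>
      have hc : ∀ v : V, ∃ A ∈ Finset.univ.image (fun v : V => ({v} : Finset V)), v ∈ A := by
        intro v
        exact ⟨{v}, mem_image.2 ⟨v, mem_univ _, rfl⟩, mem_singleton_self v⟩
      refine ⟨hc, ?_⟩
      intro A hA
      by_contra hcon
      push Not at hcon
      refine hno (pair_key G t s hs U _ hc ?_ ?_ A hA hcon)
      · intro A hA
        have : (filter (fun B => B ≠ A ∧ ¬ Homog G A B)
            (Finset.univ.image (fun v : V => ({v} : Finset V)))) = ∅ := by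
          rw [filter_eq_empty_iff]
          rintro B hB ⟨-, hH⟩
          obtain ⟨a, -, rfl⟩ := mem_image.1 hA
          obtain ⟨b, -, rfl⟩ := mem_image.1 hB
          apply hH
          by_cases hab : G.Adj a b
          · left
            intro x hx y hy
            rw [mem_singleton.1 hx, mem_singleton.1 hy]
            exact hab
          · right
            intro x hx y hy
            rw [mem_singleton.1 hx, mem_singleton.1 hy]
            exact hab
        rw [this]
        simp
      · intro A hA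
        obtain ⟨a, -, rfl⟩ := mem_image.1 hA
        have : (({a} : Finset V) ∩ U).card ≤ 1 := (card_le_card inter_subset_left).trans (by simp)
        have h' : ((({a} : Finset V) ∩ U).card : ℝ) ≤ 1 := by exact_mod_cast this
        linarith
    | @tail P' Q' _ hstep ih =>
      obtain ⟨ihc, ihs⟩ := ih
      obtain ⟨⟨A, hA, B, hB, hAB, rfl⟩, hgood⟩ := hstep
      have hc : ∀ v : V, ∃ X ∈ insert (A ∪ B) ((P'.erase A).erase B), v ∈ X := by
        intro v
        obtain ⟨X, hX, hv⟩ := ihc v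
        by_cases h1 : X = A
        · exact ⟨A ∪ B, mem_insert_self _ _, mem_union_left _ (h1 ▸ hv)⟩
        · by_cases h2 : X = B
          · exact ⟨A ∪ B, mem_insert_self _ _, mem_union_right _ (h2 ▸ hv)⟩
          · exact ⟨X, mem_insert_of_mem (mem_erase.2 ⟨h2, mem_erase.2 ⟨h1, hX⟩⟩), hv⟩
      have hsm : ∀ X ∈ insert (A ∪ B) ((P'.erase A).erase B), ((X ∩ U).card : ℝ) ≤ 2 * s := by
        intro X hX
        rcases mem_insert.1 hX with rfl | hX
        · have h1 : ((A ∪ B) ∩ U).card ≤ (A ∩ U).card + (B ∩ U).card := by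
            rw [union_inter_distrib_right]
            exact card_union_le _ _
          have h2 : (((A ∪ B) ∩ U).card : ℝ) ≤ (A ∩ U).card + (B ∩ U).card := by exact_mod_cast h1
          have := ihs A hA
          have := ihs B hB
          linarith
        · have := ihs X (mem_of_mem_erase (mem_of_mem_erase hX))
          linarith
      refine ⟨hc, ?_⟩
      intro X hX
      by_contra hcon
      push Not at hcon
      exact hno (pair_key G t s hs U _ hc hgood hsm X hX hcon)
  have := (key _ h).2 Finset.univ (mem_singleton_self _)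
  rw [univ_inter] at this
  linarith

/-- Clique number of the subgraph induced on `A`. -/
noncomputable def w (G : SimpleGraph V) (A : Finset V) : ℕ :=
  (A.powerset.filter (fun S : Finset V => G.IsClique (S : Set V))).sup Finset.card

theorem le_w (G : SimpleGraph V) {A S : Finset V} (h : S ⊆ A) (hS : G.IsClique (S : Set V)) :
    S.card ≤ w G A :=
  Finset.le_sup (f := Finset.card) (mem_filter.2 ⟨mem_powerset.2 h, hS⟩)

theorem exists_w (G : SimpleGraph V) (A : Finset V) :
    ∃ S : Finset V, S ⊆ A ∧ G.IsClique (S : Set V) ∧ S.card = w G A := by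
  have hne : (A.powerset.filter (fun S : Finset V => G.IsClique (S : Set V))).Nonempty :=
    ⟨∅, mem_filter.2 ⟨empty_mem_powerset _, by simp⟩⟩
  obtain ⟨S, hS, h⟩ := Finset.exists_mem_eq_sup _ hne Finset.card
  obtain ⟨h1, h2⟩ := mem_filter.1 hS
  exact ⟨S, mem_powerset.1 h1, h2, h.symm⟩

theorem w_mono (G : SimpleGraph V) {A B : Finset V} (h : A ⊆ B) : w G A ≤ w G B := by
  obtain ⟨S, h1, h2, h3⟩ := exists_w G A
  rw [← h3]
  exact le_w G (h1.trans h) h2

theorem w_pos (G : SimpleGraph V) {A : Finset V} (h : A.Nonempty) : 1 ≤ w G A := by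
  obtain ⟨a, ha⟩ := h
  have := le_w G (S := {a}) (singleton_subset_iff.2 ha) (by simp)
  simpa using this

theorem w_add (G : SimpleGraph V) {A R U : Finset V} (hA : A ⊆ U) (hR : R ⊆ U)
    (h : ∀ a ∈ A, ∀ r ∈ R, G.Adj a r) : w G A + w G R ≤ w G U := by
  obtain ⟨S, h1, h2, h3⟩ := exists_w G A
  obtain ⟨T, g1, g2, g3⟩ := exists_w G R
  have hdis : Disjoint S T := by
    rw [disjoint_left]
    intro x hx hx'
    exact G.loopless.irrefl x (h x (h1 hx) x (g1 hx'))
  rw [← h3, ← g3, ← card_union_of_disjoint hdis]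
  refine le_w G (union_subset (h1.trans hA) (g1.trans hR)) ?_
  intro x hx y hy hxy
  rw [mem_coe, mem_union] at hx hy
  rcases hx with hx | hx <;> rcases hy with hy | hy
  · exact h2 hx hy hxy
  · exact h x (h1 hx) y (g1 hy)
  · exact (h y (h1 hy) x (g1 hx)).symm
  · exact g2 hx hy hxy

theorem w_lt (G : SimpleGraph V) {k : ℕ} (h : G.CliqueFree k) (A : Finset V) : w G A < k := by
  obtain ⟨S, h1, h2, h3⟩ := exists_w G A
  by_contra hcon
  push Not at hcon
  rw [← h3] at hcon
  obtain ⟨T, hT, hc⟩ := Finset.exists_subset_card_eq hcon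
  exact h T ⟨h2.subset (by exact_mod_cast hT), hc⟩

/-- The potential lemma. -/
theorem potential (G : SimpleGraph V) (D μ ν : ℝ) (hD : 0 < D) (hμ : 0 ≤ μ) (hν : 0 ≤ ν)
    (hpair : ∀ U : Finset V, D < U.card → ∃ A R B : Finset V, A ⊆ U ∧ R ⊆ U ∧ B ⊆ U ∧
      A.Nonempty ∧ (∀ a ∈ A, ∀ r ∈ R, G.Adj a r) ∧ (∀ a ∈ A, ∀ b ∈ B, Gᶜ.Adj a b) ∧
      (U.card : ℝ) ≤ R.card + B.card + D ∧
      exp (-(μ * w G A)) + exp (-(ν * w Gᶜ A)) ≤ 1) (U : Finset V) :
    (U.card : ℝ) + D ≤ 2 * D * exp (μ * w G U + ν * w Gᶜ U) := by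
  induction U using Finset.strongInduction with
  | H U ih =>
    by_cases hU : (U.card : ℝ) ≤ D
    · have h1 : (1 : ℝ) ≤ exp (μ * w G U + ν * w Gᶜ U) :=
        one_le_exp (by positivity)
      have h2 : 2 * D * 1 ≤ 2 * D * exp (μ * w G U + ν * w Gᶜ U) :=
        mul_le_mul_of_nonneg_left h1 (by linarith)
      linarith
    · push Not at hU
      obtain ⟨A, R, B, hA, hR, hB, ⟨a0, ha0⟩, hAR, hAB, hcard, hexp⟩ := hpair U hU
      have hRss : R ⊂ U := by
        refine hR.ssubset_of_ne ?_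
        rintro rfl
        exact G.loopless.irrefl a0 (hAR a0 ha0 a0 (hA ha0))
      have hBss : B ⊂ U := by
        refine hB.ssubset_of_ne ?_
        rintro rfl
        exact Gᶜ.loopless.irrefl a0 (hAB a0 ha0 a0 (hA ha0))
      have ihR := ih R hRss
      have ihB := ih B hBss
      have e1 : (w G A : ℝ) + w G R ≤ w G U := by exact_mod_cast w_add G hA hR hAR
      have e2 : (w Gᶜ A : ℝ) + w Gᶜ B ≤ w Gᶜ U := by exact_mod_cast w_add Gᶜ hA hB hAB
      have e3 : (w Gᶜ R : ℝ) ≤ w Gᶜ U := by exact_mod_cast w_mono Gᶜ hR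
      have e4 : (w G B : ℝ) ≤ w G U := by exact_mod_cast w_mono G hB
      set M := μ * w G U + ν * w Gᶜ U with hM
      have f1 : exp (μ * w G R + ν * w Gᶜ R) ≤ exp M * exp (-(μ * w G A)) := by
        rw [← exp_add]
        apply exp_le_exp.2
        have := mul_le_mul_of_nonneg_left e1 hμ
        have := mul_le_mul_of_nonneg_left e3 hν
        rw [hM]
        nlinarith
      have f2 : exp (μ * w G B + ν * w Gᶜ B) ≤ exp M * exp (-(ν * w Gᶜ A)) := by
        rw [← exp_add]
        apply exp_le_exp.2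
        have := mul_le_mul_of_nonneg_left e2 hν
        have := mul_le_mul_of_nonneg_left e4 hμ
        rw [hM]
        nlinarith
      have f3 : exp M * exp (-(μ * w G A)) + exp M * exp (-(ν * w Gᶜ A)) ≤ exp M := by
        have := mul_le_mul_of_nonneg_left hexp (exp_pos M).le
        linarith
      have g1 := mul_le_mul_of_nonneg_left f1 (show 0 ≤ 2 * D by linarith)
      have g2 := mul_le_mul_of_nonneg_left f2 (show 0 ≤ 2 * D by linarith)
      have g3 := mul_le_mul_of_nonneg_left f3 (show 0 ≤ 2 * D by linarith)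
      linarith

theorem exp_pair {x z : ℝ} (hx : 0 < x) (hz : 0 < z) (h : 1 ≤ x * z) :
    exp (-x) + exp (-z) ≤ 1 := by
  have h1 : exp (-x) ≤ 1 / (1 + x) := by
    rw [exp_neg, ← one_div]
    apply one_div_le_one_div_of_le (by linarith)
    linarith [add_one_le_exp x]
  have h2 : exp (-z) ≤ 1 / (1 + z) := by
    rw [exp_neg, ← one_div]
    apply one_div_le_one_div_of_le (by linarith)
    linarith [add_one_le_exp z]
  have h3 : 1 / (1 + x) + 1 / (1 + z) ≤ 1 := by
    rw [div_add_div _ _ (by linarith) (by linarith), div_le_one (by positivity)]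
    nlinarith
  linarith

theorem exp_two {y : ℝ} (hy : 0 ≤ y) (hy2 : y ≤ 1 / 2) : exp (-(2 * y)) ≤ 1 - y := by
  have h1 : exp (-(2 * y)) ≤ 1 / (1 + 2 * y) := by
    rw [exp_neg, ← one_div]
    apply one_div_le_one_div_of_le (by linarith)
    linarith [add_one_le_exp (2 * y)]
  have h2 : 1 / (1 + 2 * y) ≤ 1 - y := by
    rw [div_le_iff₀ (by linarith)]
    nlinarith
  linarith

/-- The analytic step. -/
theorem analytic (j : ℕ) (hj : 1 ≤ j) (c : ℝ) (hc : 0 < c) :
    ∃ K : ℝ, 0 < K ∧ ∀ ε η b : ℝ, 0 < ε → 0 ≤ η → 1 ≤ b →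
      (∀ a : ℝ, 1 ≤ a → c ≤ a ^ j * ε + exp (-a) * η) →
      (∀ a : ℝ, 1 ≤ a → c ≤ a ^ j * η + exp (-a) * ε) →
      exp (-(K * b ^ (j + 1) * ε)) + exp (-(K * exp (-b) * η)) ≤ 1 := by
  have hfac : (1 : ℝ) ≤ (j.factorial : ℝ) := by exact_mod_cast Nat.one_le_iff_ne_zero.2 j.factorial_ne_zero
  have h2j : (j : ℝ) ≤ 2 ^ j := by exact_mod_cast (Nat.lt_two_pow_self (n := j)).le
  have hj1 : (1 : ℝ) ≤ j := by exact_mod_cast hj
  set F : ℝ := 2 ^ j * j.factorial with hF
  have hF2 : (2 : ℝ) ^ j ≤ F := by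
    rw [hF]
    nlinarith [pow_pos (show (0 : ℝ) < 2 by norm_num) j]
  have hF1 : 1 ≤ F := by linarith
  refine ⟨4 * F / c, by positivity, ?_⟩
  intro ε η b hε hη hb h1 h2
  set K := 4 * F / c with hK
  have hKc : K * c = 4 * F := by rw [hK]; field_simp
  have hKpos : 0 < K := by rw [hK]; positivity
  have hbj : (1 : ℝ) ≤ b ^ j := one_le_pow₀ hb
  by_cases hcase : 2 ≤ K * b ^ j * ε
  · -- large `ε`
    set x := K * b ^ (j + 1) * ε with hx
    have hxb : x = b * (K * b ^ j * ε) := by rw [hx, pow_succ]; ring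
    have hx2b : 2 * b ≤ x := by rw [hxb]; nlinarith
    have hxK : K * ε ≤ x := by
      have : (1 : ℝ) ≤ b ^ (j + 1) := one_le_pow₀ hb
      rw [hx]
      have h3 : 0 ≤ K * ε * (b ^ (j + 1) - 1) := mul_nonneg (by positivity) (by linarith)
      nlinarith
    set a := 1 + 2 * ε / c with ha
    have hpos : 0 < 2 * ε / c := by positivity
    have ha1 : 1 ≤ a := by linarith
    have h3 := h2 a ha1
    have h4 : exp (-a) * ε ≤ c / 2 := by
      have h5 : 2 * ε / c ≤ exp a := by linarith [add_one_le_exp a]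
      rw [exp_neg]
      rw [inv_mul_le_iff₀ (exp_pos a)]
      have h6 : 2 * ε / c * (c / 2) ≤ exp a * (c / 2) :=
        mul_le_mul_of_nonneg_right h5 (by linarith)
      have h7 : 2 * ε / c * (c / 2) = ε := by field_simp
      linarith
    have h5 : a ^ j ≤ exp (j * (2 * ε / c)) := by
      rw [exp_nat_mul]
      apply pow_le_pow_left₀ (by linarith)
      linarith [add_one_le_exp (2 * ε / c)]
    have h6 : c / 2 ≤ exp (j * (2 * ε / c)) * η := by
      have := mul_le_mul_of_nonneg_right h5 hη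
      linarith
    have h7 : b + j * (2 * ε / c) ≤ x := by
      have h8 : j * (2 * ε / c) ≤ K * ε / 2 := by
        rw [hK]
        have h9 : (4 * F / c) * ε / 2 = F * (2 * ε / c) := by ring
        rw [h9]
        exact mul_le_mul_of_nonneg_right (by linarith) hpos.le
      linarith
    have h8 : 2 * exp (-x) ≤ K * exp (-b) * η := by
      have h9 : exp (-x) * exp b * exp (j * (2 * ε / c)) ≤ 1 := by
        rw [← exp_add, ← exp_add]
        apply exp_le_one_iff.2
        linarith
      have h10 : exp (-b) * exp b = 1 := by rw [← exp_add]; simp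
      have h11 : exp (-x) * exp (j * (2 * ε / c)) ≤ exp (-b) := by
        have := mul_le_mul_of_nonneg_left h9 (exp_pos (-b)).le
        calc exp (-x) * exp (j * (2 * ε / c)) = exp (-b) * (exp (-x) * exp b * exp (j * (2 * ε / c))) := by
              rw [show exp (-b) * (exp (-x) * exp b * exp (j * (2 * ε / c)))
                = (exp (-b) * exp b) * (exp (-x) * exp (j * (2 * ε / c))) by ring, h10, one_mul]
          _ ≤ exp (-b) := by linarith
      have h12 : K * (c / 2) * exp (-x) ≤ K * exp (-b) * η := by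
        calc K * (c / 2) * exp (-x) ≤ K * (exp (j * (2 * ε / c)) * η) * exp (-x) := by
              apply mul_le_mul_of_nonneg_right _ (exp_pos _).le
              exact mul_le_mul_of_nonneg_left h6 hKpos.le
          _ = K * (exp (-x) * exp (j * (2 * ε / c))) * η := by ring
          _ ≤ K * exp (-b) * η := by
              apply mul_le_mul_of_nonneg_right _ hη
              exact mul_le_mul_of_nonneg_left h11 hKpos.le
      have h13 : K * (c / 2) = 2 * F := by linarith
      rw [h13] at h12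
      have := exp_pos (-x)
      nlinarith
    have h9 : exp (-x) ≤ 1 / 2 := by
      rw [exp_neg, ← one_div]
      apply one_div_le_one_div_of_le (by norm_num)
      linarith [add_one_le_exp x]
    have h10 := exp_two (exp_pos (-x)).le h9
    have h11 : exp (-(K * exp (-b) * η)) ≤ exp (-(2 * exp (-x))) := by
      apply exp_le_exp.2
      linarith
    linarith
  · push Not at hcase
    -- small `ε`
    set q : ℝ := c / (2 * ε) with hq
    have hqpos : 0 < q := by positivity
    set a : ℝ := q ^ ((1 : ℝ) / j) with ha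
    have hjne : (j : ℝ) ≠ 0 := by positivity
    have haj : a ^ j = q := by
      rw [ha, ← rpow_natCast, ← rpow_mul hqpos.le]
      rw [one_div, inv_mul_cancel₀ hjne, rpow_one]
    have hapos : 0 < a := by rw [ha]; positivity
    have hq2 : F * b ^ j ≤ q := by
      rw [hq, le_div_iff₀ (by positivity)]
      have : K * b ^ j * ε * c ≤ 2 * c := mul_le_mul_of_nonneg_right hcase.le hc.le
      have h3 : K * b ^ j * ε * c = 4 * F * (b ^ j * ε) := by
        calc K * b ^ j * ε * c = (K * c) * (b ^ j * ε) := by ring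
          _ = _ := by rw [hKc]
      nlinarith
    have ha2b : 2 * b ≤ a := by
      by_contra hcon
      push Not at hcon
      have h3 : a ^ j < (2 * b) ^ j := pow_lt_pow_left₀ hcon hapos.le (by omega)
      rw [haj, mul_pow] at h3
      have h4 : 2 ^ j * b ^ j ≤ F * b ^ j := mul_le_mul_of_nonneg_right hF2 (by positivity)
      linarith
    have h3 := h1 a (by linarith)
    rw [haj] at h3
    have h4 : q * ε = c / 2 := by rw [hq]; field_simp
    have h5 : c / 2 ≤ exp (-a) * η := by linarith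
    have h6 : c / 2 * exp (a / 2) ≤ exp (-b) * η := by
      have h7 : exp (-a) * exp (a / 2) ≤ exp (-b) := by
        rw [← exp_add]
        apply exp_le_exp.2
        linarith
      calc c / 2 * exp (a / 2) ≤ exp (-a) * η * exp (a / 2) :=
            mul_le_mul_of_nonneg_right h5 (exp_pos _).le
        _ = (exp (-a) * exp (a / 2)) * η := by ring
        _ ≤ exp (-b) * η := mul_le_mul_of_nonneg_right h7 hη
    have h7 : (a / 2) ^ j / j.factorial ≤ exp (a / 2) := Real.pow_div_factorial_le_exp _ (by positivity) _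
    have h8 : q / F ≤ exp (a / 2) := by
      have : (a / 2) ^ j / j.factorial = q / F := by
        rw [div_pow, haj, hF]
        field_simp
      rwa [this] at h7
    have hbj1 : (1 : ℝ) ≤ b ^ (j + 1) := one_le_pow₀ hb
    apply exp_pair
    · positivity
    · have : 0 < c / 2 * exp (a / 2) := by positivity
      have h9 : 0 < exp (-b) * η := by linarith
      have h10 : 0 < K * (exp (-b) * η) := by positivity
      linarith
    · have h9 : K * ε ≤ K * b ^ (j + 1) * ε := by
        have h3 : 0 ≤ K * ε * (b ^ (j + 1) - 1) := mul_nonneg (by positivity) (by linarith)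
        nlinarith
      have h10 : K * (c / 2 * (q / F)) ≤ K * exp (-b) * η := by
        have h11 : c / 2 * (q / F) ≤ exp (-b) * η :=
          (mul_le_mul_of_nonneg_left h8 (by linarith)).trans h6
        have := mul_le_mul_of_nonneg_left h11 hKpos.le
        linarith
      have h11 : (K * ε) * (K * (c / 2 * (q / F))) ≤ K * b ^ (j + 1) * ε * (K * exp (-b) * η) :=
        mul_le_mul h9 h10 (by positivity) (by positivity)
      have h12 : (K * ε) * (K * (c / 2 * (q / F))) = 4 * F := by
        calc (K * ε) * (K * (c / 2 * (q / F))) = K * (K * c) * (q * ε) / (2 * F) := by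
              field_simp
          _ = K * c * (K * c) / (4 * F) := by rw [h4]; field_simp; ring
          _ = 4 * F := by rw [hKc]; field_simp
      linarith

/-- The inequalities of level `j`. -/
def Lvl (G : SimpleGraph V) (j : ℕ) (c Y : ℝ) (A : Finset V) : Prop :=
  ∀ a : ℝ, 1 ≤ a → c * Y ^ j ≤ a ^ j * w G A + exp (-a) * w Gᶜ A ∧
    c * Y ^ j ≤ a ^ j * w Gᶜ A + exp (-a) * w G A

theorem Lvl.compl {G : SimpleGraph V} {j : ℕ} {c Y : ℝ} {A : Finset V} (h : Lvl G j c Y A) :
    Lvl Gᶜ j c Y A := by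
  intro a ha
  obtain ⟨h1, h2⟩ := h a ha
  rw [compl_compl]
  exact ⟨h2, h1⟩

theorem half_exp {Y M D u : ℝ} (hD : 0 < D) (h1 : u + D ≤ 2 * D * exp M)
    (h2 : D * exp Y ≤ u) : Y / 2 ≤ M := by
  have h3 : D * (exp Y + 1) ≤ D * (2 * exp M) := by nlinarith
  have h4 : exp Y + 1 ≤ 2 * exp M := le_of_mul_le_mul_left h3 hD
  have h5 : exp Y = exp (Y / 2) * exp (Y / 2) := by
    rw [← exp_add]
    congr 1
    ring
  have h6 : exp (Y / 2) ≤ exp M := by nlinarith [sq_nonneg (exp (Y / 2) - 1)]
  exact exp_le_exp.1 h6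

theorem step_half (G : SimpleGraph V) {s D c Y K : ℝ} {j : ℕ} (hs1 : 1 ≤ s) (hsD : s ≤ D)
    (hY : 0 < Y) (hK : 0 < K)
    (hKan : ∀ ε η b : ℝ, 0 < ε → 0 ≤ η → 1 ≤ b →
      (∀ a : ℝ, 1 ≤ a → c ≤ a ^ j * ε + exp (-a) * η) →
      (∀ a : ℝ, 1 ≤ a → c ≤ a ^ j * η + exp (-a) * ε) →
      exp (-(K * b ^ (j + 1) * ε)) + exp (-(K * exp (-b) * η)) ≤ 1)
    (hP : PairProp G s D) (hL : ∀ A : Finset V, s ≤ A.card → Lvl G j c Y A)
    (U : Finset V) (hU : D * exp Y ≤ U.card) (b : ℝ) (hb : 1 ≤ b) :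
    1 / (2 * K) * Y ^ (j + 1) ≤ b ^ (j + 1) * w G U + exp (-b) * w Gᶜ U := by
  have hYj : 0 < Y ^ j := by positivity
  have hpot := potential G D (K * b ^ (j + 1) / Y ^ j) (K * exp (-b) / Y ^ j) (by linarith)
    (by positivity) (by positivity) (by
      intro U hU
      obtain ⟨A, R, B, h1, h2, h3, h4, h5, h6, h7⟩ := hP U (by linarith)
      have hAne : A.Nonempty := by
        rw [← card_pos]
        have : (0 : ℝ) < A.card := by linarith
        exact_mod_cast this
      refine ⟨A, R, B, h1, h2, h3, hAne, h5, h6, h7, ?_⟩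
      have hw : (1 : ℝ) ≤ w G A := by exact_mod_cast w_pos G hAne
      have h8 := hKan (w G A / Y ^ j) (w Gᶜ A / Y ^ j) b (by positivity) (by positivity) hb
        (by
          intro a ha
          have h9 := (hL A h4 a ha).1
          rw [← mul_div_assoc, ← mul_div_assoc, ← add_div, le_div_iff₀ hYj]
          exact h9)
        (by
          intro a ha
          have h9 := (hL A h4 a ha).2
          rw [← mul_div_assoc, ← mul_div_assoc, ← add_div, le_div_iff₀ hYj]
          exact h9)
      have e1 : K * b ^ (j + 1) / Y ^ j * w G A = K * b ^ (j + 1) * (w G A / Y ^ j) := by ring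
      have e2 : K * exp (-b) / Y ^ j * w Gᶜ A = K * exp (-b) * (w Gᶜ A / Y ^ j) := by ring
      rw [e1, e2]
      exact h8) U
  have hM := half_exp (by linarith) hpot hU
  have e3 : K * b ^ (j + 1) / Y ^ j * w G U + K * exp (-b) / Y ^ j * w Gᶜ U =
      K / Y ^ j * (b ^ (j + 1) * w G U + exp (-b) * w Gᶜ U) := by ring
  rw [e3] at hM
  have h9 : Y / 2 * (Y ^ j / K) ≤
      K / Y ^ j * (b ^ (j + 1) * w G U + exp (-b) * w Gᶜ U) * (Y ^ j / K) :=
    mul_le_mul_of_nonneg_right hM (by positivity)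
  have e4 : K / Y ^ j * (b ^ (j + 1) * w G U + exp (-b) * w Gᶜ U) * (Y ^ j / K) =
      b ^ (j + 1) * w G U + exp (-b) * w Gᶜ U := by
    field_simp
  have e5 : Y / 2 * (Y ^ j / K) = 1 / (2 * K) * Y ^ (j + 1) := by
    rw [pow_succ]
    field_simp
  linarith

theorem step (G : SimpleGraph V) {s D c Y K : ℝ} {j : ℕ} (hs1 : 1 ≤ s) (hsD : s ≤ D)
    (hY : 0 < Y) (hK : 0 < K)
    (hKan : ∀ ε η b : ℝ, 0 < ε → 0 ≤ η → 1 ≤ b →
      (∀ a : ℝ, 1 ≤ a → c ≤ a ^ j * ε + exp (-a) * η) →
      (∀ a : ℝ, 1 ≤ a → c ≤ a ^ j * η + exp (-a) * ε) →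
      exp (-(K * b ^ (j + 1) * ε)) + exp (-(K * exp (-b) * η)) ≤ 1)
    (hP : PairProp G s D) (hL : ∀ A : Finset V, s ≤ A.card → Lvl G j c Y A)
    (U : Finset V) (hU : D * exp Y ≤ U.card) :
    Lvl G (j + 1) (1 / (2 * K)) Y U := by
  intro b hb
  refine ⟨step_half G hs1 hsD hY hK hKan hP hL U hU b hb, ?_⟩
  have h := step_half Gᶜ hs1 hsD hY hK hKan hP.compl (fun A hA => (hL A hA).compl) U hU b hb
  rw [compl_compl] at h
  exact h

theorem base_half (G : SimpleGraph V) {Y : ℝ} (U : Finset V)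
    (hU : exp Y ≤ U.card) (b : ℝ) (hb : 1 ≤ b) :
    1 / 4 * Y ≤ b * w G U + exp (-b) * w Gᶜ U := by
  have hpot := potential G 1 b (2 * exp (-b)) (by norm_num) (by linarith) (by positivity) (by
      intro U hU
      have hUne : U.Nonempty := by
        rw [← card_pos]
        have : (0 : ℝ) < U.card := by linarith
        exact_mod_cast this
      obtain ⟨v, hv⟩ := hUne
      refine ⟨{v}, U.filter (fun u => G.Adj v u), U.filter (fun u => Gᶜ.Adj v u),
        singleton_subset_iff.2 hv, filter_subset _ _, filter_subset _ _, ⟨v, mem_singleton_self v⟩,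
        ?_, ?_, ?_, ?_⟩
      · intro a ha r hr
        rw [mem_singleton.1 ha]
        exact (mem_filter.1 hr).2
      · intro a ha r hr
        rw [mem_singleton.1 ha]
        exact (mem_filter.1 hr).2
      · have hsub : U ⊆ (U.filter (fun u => G.Adj v u) ∪ U.filter (fun u => Gᶜ.Adj v u)) ∪ {v} := by
          intro u hu
          by_cases huv : u = v
          · exact mem_union_right _ (mem_singleton.2 huv)
          · refine mem_union_left _ ?_
            by_cases ha : G.Adj v u
            · exact mem_union_left _ (mem_filter.2 ⟨hu, ha⟩)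
            · refine mem_union_right _ (mem_filter.2 ⟨hu, ?_⟩)
              rw [SimpleGraph.compl_adj]
              exact ⟨fun h => huv h.symm, ha⟩
        have h1 := (card_le_card hsub).trans ((card_union_le _ _).trans
          (Nat.add_le_add_right (card_union_le _ _) _))
        rw [card_singleton] at h1
        exact_mod_cast h1
      · have h1 : (1 : ℝ) ≤ w G {v} := by exact_mod_cast w_pos G ⟨v, mem_singleton_self v⟩
        have h2 : (1 : ℝ) ≤ w Gᶜ {v} := by exact_mod_cast w_pos Gᶜ ⟨v, mem_singleton_self v⟩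
        have h3 : exp (-(b * w G {v})) ≤ exp (-b) := by
          apply exp_le_exp.2
          nlinarith
        have h4 : exp (-(2 * exp (-b) * w Gᶜ {v})) ≤ exp (-(2 * exp (-b))) := by
          apply exp_le_exp.2
          have : 0 < exp (-b) := exp_pos _
          nlinarith
        have h5 : exp (-b) ≤ 1 / 2 := by
          rw [exp_neg, ← one_div]
          apply one_div_le_one_div_of_le (by norm_num)
          linarith [add_one_le_exp b]
        have h6 := exp_two (exp_pos (-b)).le h5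
        linarith) U
  have hM := half_exp (by norm_num) hpot (by simpa using hU)
  have : 0 ≤ b * w G U := by positivity
  have : 0 ≤ exp (-b) * w Gᶜ U := by positivity
  linarith

theorem base (G : SimpleGraph V) {Y : ℝ} (U : Finset V) (hU : exp Y ≤ U.card) :
    Lvl G 1 (1 / 4) Y U := by
  intro b hb
  have h1 := base_half G U hU b hb
  have h2 := base_half Gᶜ U hU b hb
  rw [compl_compl] at h2
  rw [pow_one, pow_one]
  exact ⟨h1, h2⟩

theorem levels (j : ℕ) : ∃ c : ℝ, 0 < c ∧ ∀ (V : Type) [Fintype V] (G : SimpleGraph V) (t : ℕ),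
    TwinWidthLE G t → ∀ Y : ℝ, 0 < Y → ∀ U : Finset V,
      (2 * ((t : ℝ) + 1)) ^ j * exp ((j + 1) * Y) ≤ U.card → Lvl G (j + 1) c Y U := by
  induction j with
  | zero =>
    refine ⟨1 / 4, by norm_num, ?_⟩
    intro V _ G t _ Y _ U hU
    apply base G U
    simpa using hU
  | succ j ih =>
    obtain ⟨c, hc, ih⟩ := ih
    obtain ⟨K, hK, hKan⟩ := analytic (j + 1) (by omega) c hc
    refine ⟨1 / (2 * K), by positivity, ?_⟩
    intro V _ G t ht Y hY U hU
    set s : ℝ := (2 * ((t : ℝ) + 1)) ^ j * exp ((j + 1) * Y) with hs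
    have ht1 : (1 : ℝ) ≤ 2 * ((t : ℝ) + 1) := by
      have : (0 : ℝ) ≤ t := Nat.cast_nonneg t
      linarith
    have hs1 : 1 ≤ s := by
      rw [hs]
      have h1 : (1 : ℝ) ≤ (2 * ((t : ℝ) + 1)) ^ j := one_le_pow₀ ht1
      have h2 : (1 : ℝ) ≤ exp ((j + 1) * Y) := one_le_exp (by positivity)
      nlinarith
    refine step G (s := s) (D := 2 * s * (t + 1)) hs1 (by nlinarith) hY hK hKan
      (pair_lemma G t ht s hs1) (fun A hA => ih V G t ht Y hY A hA) U ?_
    have e : 2 * s * (t + 1) * exp Y = (2 * ((t : ℝ) + 1)) ^ (j + 1) * exp (((j + 1 : ℕ) + 1) * Y) := by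
      rw [hs]
      have : exp (((j + 1 : ℕ) + 1) * Y) = exp ((j + 1) * Y) * exp Y := by
        rw [← exp_add]
        congr 1
        push_cast
        ring
      rw [this]
      ring
    rw [e]
    exact hU

/-- The upper bound. -/
theorem upper (j : ℕ) (hj : 1 ≤ j) : ∃ C : ℝ, 0 < C ∧
    ∀ (V : Type) [Fintype V] (G : SimpleGraph V) (t k : ℕ),
      TwinWidthLE G t → G.CliqueFree k → Gᶜ.CliqueFree k →
      (Fintype.card V : ℝ) ≤ (2 * ((t : ℝ) + 1)) ^ (j - 1) * exp (C * (k : ℝ) ^ ((1 : ℝ) / j)) := by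
  obtain ⟨i, rfl⟩ : ∃ i, j = i + 1 := ⟨j - 1, by omega⟩
  obtain ⟨c, hc, h⟩ := levels i
  refine ⟨((i : ℝ) + 1) * (2 / c) ^ ((1 : ℝ) / (i + 1 : ℕ)), by positivity, ?_⟩
  intro V _ G t k ht h1 h2
  rcases Nat.eq_zero_or_pos k with rfl | hk
  · exact absurd h1 (by simp)
  by_contra hcon
  push Not at hcon
  have hk' : (0 : ℝ) < k := by exact_mod_cast hk
  set Y : ℝ := (2 / c * k) ^ ((1 : ℝ) / (i + 1 : ℕ)) with hY
  have hYpos : 0 < Y := by rw [hY]; positivity
  have hYpow : Y ^ (i + 1) = 2 / c * k := by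
    rw [hY, ← rpow_natCast, ← rpow_mul (by positivity), one_div, inv_mul_cancel₀ (by positivity),
      rpow_one]
  have e : ((i : ℝ) + 1) * (2 / c) ^ ((1 : ℝ) / (i + 1 : ℕ)) * (k : ℝ) ^ ((1 : ℝ) / (i + 1 : ℕ)) =
      (i + 1) * Y := by
    rw [hY, mul_rpow (by positivity) (by positivity)]
    ring
  rw [e] at hcon
  have h3 := (h V G t ht Y hYpos Finset.univ (by
    rw [card_univ]
    simpa using hcon.le) 1 le_rfl).1
  rw [hYpow, one_pow, one_mul] at h3
  have h4 : (w G Finset.univ : ℝ) + 1 ≤ k := by exact_mod_cast w_lt G h1 Finset.univ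
  have h5 : (w Gᶜ Finset.univ : ℝ) + 1 ≤ k := by exact_mod_cast w_lt Gᶜ h2 Finset.univ
  have h6 : exp (-1) ≤ 1 := exp_le_one_iff.2 (by norm_num)
  have h7 : exp (-1) * w Gᶜ Finset.univ ≤ w Gᶜ Finset.univ := by
    have : (0 : ℝ) ≤ w Gᶜ Finset.univ := Nat.cast_nonneg _
    nlinarith
  have h8 : c * (2 / c * k) = 2 * k := by field_simp
  linarith

end Pool.Agent.Y422.TW
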