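import Mathlib

/-!
# Twin-width

Definitions for the theorem on diagonal Ramsey numbers of colourings of bounded twin-width.
-/

namespace Pool.Agent.Y422.TW

open Finset

/-- Two sets of vertices are homogeneous to one another: all pairs between them are adjacent, or no
pair is. -/
def Homog {V : Type*} (G : SimpleGraph V) (A B : Finset V) : Prop :=
  (∀ a ∈ A, ∀ b ∈ B, G.Adj a b) ∨ (∀ a ∈ A, ∀ b ∈ B, ¬ G.Adj a b)

open Classical in
/-- `Contract G t P Q`: the partition `Q` arises from the partition `P` by merging two different
parts, and in `Q` every part is non-homogeneous to at most `t` other parts. -/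
def Contract {V : Type*} (G : SimpleGraph V) (t : ℕ) (P Q : Finset (Finset V)) : Prop :=
  (∃ A ∈ P, ∃ B ∈ P, A ≠ B ∧ Q = insert (A ∪ B) ((P.erase A).erase B)) ∧
  ∀ A ∈ Q, (Q.filter (fun B => B ≠ A ∧ ¬ Homog G A B)).card ≤ t

open Classical in
/-- The twin-width of `G` is at most `t`: the partition into singletons can be turned into the
partition with one part by successive contractions. -/
def TwinWidthLE {V : Type*} [Fintype V] (G : SimpleGraph V) (t : ℕ) : Prop :=
  Relation.ReflTransGen (Contract G t) (Finset.univ.image (fun v => {v})) {Finset.univ}

end Pool.Agent.Y422.TW
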