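import Pool.Agent.Y422.TW.Lower

/-!
# Assembly
-/

namespace Pool.Agent.Y422.TW

open Finset Real

open Classical

attribute [-instance] instDecidableEqProd

/-- The edges inside a set. -/
noncomputable def edg {N : ℕ} (S : Finset (Fin N)) : Finset (Sym2 (Fin N)) :=
  S.offDiag.image Sym2.mk.uncurry

noncomputable def bad {N : ℕ} (b : Bool) (S : Finset (Fin N)) : Finset (Sym2 (Fin N) → Bool) :=
  Fintype.piFinset (fun e => if e ∈ edg S then {b} else Finset.univ)

theorem bad_card {N : ℕ} (b : Bool) (S : Finset (Fin N)) :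
    (bad b S).card * 2 ^ (edg S).card = 2 ^ Fintype.card (Sym2 (Fin N)) := by
  have h1 : (bad b S).card = ∏ e : Sym2 (Fin N), (if e ∈ edg S then 1 else 2) := by
    rw [bad, Fintype.card_piFinset]
    refine prod_congr rfl (fun e _ => ?_)
    split_ifs
    · simp
    · simp
  have h2 : 2 ^ (edg S).card = ∏ e : Sym2 (Fin N), (if e ∈ edg S then 2 else 1) := by
    rw [Finset.prod_ite]
    simp
  rw [h1, h2, ← prod_mul_distrib]
  have h3 : ∀ e : Sym2 (Fin N), (if e ∈ edg S then 1 else 2) * (if e ∈ edg S then 2 else 1) = 2 := by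
    intro e
    split_ifs <;> rfl
  rw [prod_congr rfl (fun e _ => h3 e), prod_const, card_univ]

theorem edg_card {N : ℕ} (S : Finset (Fin N)) : (edg S).card = S.card.choose 2 := by
  rw [edg]
  exact Sym2.card_image_offDiag S

theorem erdos (m : ℕ) (hm : 1 ≤ m) : ∃ G : SimpleGraph (Fin (2 ^ m)),
    G.CliqueFree (2 * m + 2) ∧ Gᶜ.CliqueFree (2 * m + 2) := by
  by_contra hcon
  push Not at hcon
  set N := 2 ^ m with hN
  set s := 2 * m + 2 with hs
  have hcov : (Finset.univ : Finset (Sym2 (Fin N) → Bool)) ⊆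
      (powersetCard s (Finset.univ : Finset (Fin N))).biUnion (fun S => bad true S ∪ bad false S) := by
    intro f _
    rw [mem_biUnion]
    by_cases h : (SimpleGraph.fromEdgeSet {e | f e = true}).CliqueFree s
    · have h2 := hcon _ h
      rw [SimpleGraph.CliqueFree] at h2
      push Not at h2
      obtain ⟨S, hS1, hS2⟩ := h2
      refine ⟨S, mem_powersetCard.2 ⟨subset_univ _, hS2⟩, mem_union_right _ ?_⟩
      rw [bad, Fintype.mem_piFinset]
      intro e
      split_ifs with he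
      · rw [edg, mem_image] at he
        obtain ⟨p, hp, rfl⟩ := he
        obtain ⟨hp1, hp2, hp3⟩ := mem_offDiag.1 hp
        have h3 := hS1 hp1 hp2 hp3
        rw [SimpleGraph.compl_adj] at h3
        rw [mem_singleton]
        by_contra h4
        apply h3.2
        rw [SimpleGraph.fromEdgeSet_adj]
        refine ⟨?_, hp3⟩
        show f s(p.1, p.2) = true
        rw [Bool.not_eq_false] at h4
        exact h4
      · exact mem_univ _
    · rw [SimpleGraph.CliqueFree] at h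
      push Not at h
      obtain ⟨S, hS1, hS2⟩ := h
      refine ⟨S, mem_powersetCard.2 ⟨subset_univ _, hS2⟩, mem_union_left _ ?_⟩
      rw [bad, Fintype.mem_piFinset]
      intro e
      split_ifs with he
      · rw [edg, mem_image] at he
        obtain ⟨p, hp, rfl⟩ := he
        obtain ⟨hp1, hp2, hp3⟩ := mem_offDiag.1 hp
        have h3 := hS1 hp1 hp2 hp3
        rw [SimpleGraph.fromEdgeSet_adj] at h3
        rw [mem_singleton]
        exact h3.1
      · exact mem_univ _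
  have h1 : 2 ^ Fintype.card (Sym2 (Fin N)) ≤
      ∑ S ∈ powersetCard s (Finset.univ : Finset (Fin N)), ((bad true S).card + (bad false S).card) := by
    have h2 := card_le_card hcov
    rw [card_univ, Fintype.card_fun, Fintype.card_bool] at h2
    refine h2.trans (card_biUnion_le.trans (sum_le_sum (fun S _ => card_union_le _ _)))
  have h2 : 2 ^ Fintype.card (Sym2 (Fin N)) * 2 ^ (s.choose 2) ≤
      N.choose s * (2 * 2 ^ Fintype.card (Sym2 (Fin N))) := by
    calc 2 ^ Fintype.card (Sym2 (Fin N)) * 2 ^ (s.choose 2) ≤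
        (∑ S ∈ powersetCard s (Finset.univ : Finset (Fin N)),
          ((bad true S).card + (bad false S).card)) * 2 ^ (s.choose 2) := Nat.mul_le_mul_right _ h1
      _ = ∑ S ∈ powersetCard s (Finset.univ : Finset (Fin N)),
          (2 * 2 ^ Fintype.card (Sym2 (Fin N))) := by
        rw [sum_mul]
        refine sum_congr rfl (fun S hS => ?_)
        have e1 := bad_card true S
        have e2 := bad_card false S
        rw [edg_card, (mem_powersetCard.1 hS).2] at e1 e2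
        rw [add_mul, e1, e2]
        ring
      _ = N.choose s * (2 * 2 ^ Fintype.card (Sym2 (Fin N))) := by
        rw [sum_const, card_powersetCard, card_univ, Fintype.card_fin, smul_eq_mul]
  have h3 : 2 ^ (s.choose 2) ≤ 2 * N.choose s := by
    have hpos : 0 < 2 ^ Fintype.card (Sym2 (Fin N)) := by positivity
    refine Nat.le_of_mul_le_mul_left ?_ hpos
    calc 2 ^ Fintype.card (Sym2 (Fin N)) * 2 ^ (s.choose 2) ≤
        N.choose s * (2 * 2 ^ Fintype.card (Sym2 (Fin N))) := h2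
      _ = 2 ^ Fintype.card (Sym2 (Fin N)) * (2 * N.choose s) := by ring
  have h4 : N.choose s ≤ N ^ s := Nat.choose_le_pow N s
  have h5 : 2 ^ (s.choose 2) ≤ 2 ^ (m * s + 1) := by
    calc 2 ^ (s.choose 2) ≤ 2 * N.choose s := h3
      _ ≤ 2 * N ^ s := Nat.mul_le_mul_left _ h4
      _ = 2 ^ (m * s + 1) := by rw [hN, ← pow_mul, pow_succ]; ring
  have h6 : s.choose 2 ≤ m * s + 1 := (Nat.pow_le_pow_iff_right (by norm_num)).1 h5
  have h7 : s.choose 2 = (m + 1) * (2 * m + 1) := by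
    rw [Nat.choose_two_right, hs]
    have : (2 * m + 2) * (2 * m + 2 - 1) = 2 * ((m + 1) * (2 * m + 1)) := by
      rw [show 2 * m + 2 - 1 = 2 * m + 1 by omega]
      ring
    rw [this]
    exact Nat.mul_div_cancel_left _ (by norm_num)
  rw [h7, hs] at h6
  nlinarith

theorem power (m : ℕ) (hm : 1 ≤ m) (j : ℕ) : ∃ (V : Type) (_ : Fintype V) (G : SimpleGraph V),
    Fintype.card V = (2 ^ m) ^ (j + 1) ∧ G.CliqueFree ((2 * m + 1) ^ (j + 1) + 1) ∧
      Gᶜ.CliqueFree ((2 * m + 1) ^ (j + 1) + 1) ∧ TwinWidthLE G (2 ^ m - 2) := by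
  obtain ⟨G0, h1, h2⟩ := erdos m hm
  have hpow : 2 ≤ 2 ^ m := by
    calc 2 = 2 ^ 1 := by norm_num
      _ ≤ 2 ^ m := Nat.pow_le_pow_right (by norm_num) hm
  have : Nonempty (Fin (2 ^ m)) := ⟨⟨0, by omega⟩⟩
  have hc : Fintype.card (Fin (2 ^ m)) ≤ (2 ^ m - 2) + 2 := by
    rw [Fintype.card_fin]
    omega
  induction j with
  | zero =>
    refine ⟨Fin (2 ^ m), inferInstance, G0, by simp, ?_, ?_, small_twinWidth G0 _ hc⟩
    · simpa using h1
    · simpa using h2
  | succ j ih =>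
    obtain ⟨V, hV, G, g1, g2, g3, g4⟩ := ih
    refine ⟨Fin (2 ^ m) × V, inferInstance, lex G0 G, ?_, ?_, ?_, lex_twinWidth G0 G _ hc g4⟩
    · rw [Fintype.card_prod, Fintype.card_fin, g1, pow_succ (2 ^ m) (j + 1)]
      ring
    · have := lex_cliqueFree G0 G (a := 2 * m + 1) (b := (2 * m + 1) ^ (j + 1)) h1 g2
      rw [pow_succ (2 * m + 1) (j + 1), mul_comm]
      exact this
    · rw [lex_compl]
      have := lex_cliqueFree G0ᶜ Gᶜ (a := 2 * m + 1) (b := (2 * m + 1) ^ (j + 1)) h2 g3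
      rw [pow_succ (2 * m + 1) (j + 1), mul_comm]
      exact this

theorem lower (j : ℕ) (hj : 1 ≤ j) (k : ℕ) (hk : 3 ≤ k) :
    ∃ (V : Type) (_ : Fintype V) (G : SimpleGraph V) (t : ℕ), TwinWidthLE G t ∧
      G.CliqueFree k ∧ Gᶜ.CliqueFree k ∧ (t + 1) ^ j ≤ Fintype.card V ∧
      exp (log 2 / 5 * (k : ℝ) ^ ((1 : ℝ) / j)) ≤ Fintype.card V := by
  have hj0 : (j : ℝ) ≠ 0 := by
    have : (1 : ℝ) ≤ j := by exact_mod_cast hj
    linarith
  have hlog : 0 < log 2 := log_pos (by norm_num)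
  have hroot : ∀ x : ℕ, k ≤ x ^ j → (k : ℝ) ^ ((1 : ℝ) / j) ≤ x := by
    intro x hx
    have h1 : (k : ℝ) ≤ (x : ℝ) ^ j := by exact_mod_cast hx
    calc (k : ℝ) ^ ((1 : ℝ) / j) ≤ ((x : ℝ) ^ j) ^ ((1 : ℝ) / j) :=
          rpow_le_rpow (by positivity) h1 (by positivity)
      _ = x := by
          rw [← rpow_natCast, ← rpow_mul (by positivity), mul_one_div, div_self hj0, rpow_one]
  by_cases hk3 : k ≤ 3 ^ j
  · have : Nonempty (Fin 2) := ⟨0⟩
    refine ⟨Fin 2, inferInstance, ⊥, 0, small_twinWidth _ _ (by simp), ?_, ?_, by simp, ?_⟩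
    · exact SimpleGraph.cliqueFree_of_card_lt (by rw [Fintype.card_fin]; omega)
    · exact SimpleGraph.cliqueFree_of_card_lt (by rw [Fintype.card_fin]; omega)
    · have h1 := hroot 3 hk3
      have h2 : log 2 / 5 * (k : ℝ) ^ ((1 : ℝ) / j) ≤ log 2 := by
        have : log 2 / 5 * (k : ℝ) ^ ((1 : ℝ) / j) ≤ log 2 / 5 * (3 : ℕ) :=
          mul_le_mul_of_nonneg_left h1 (by positivity)
        push_cast at this
        linarith
      calc exp (log 2 / 5 * (k : ℝ) ^ ((1 : ℝ) / j)) ≤ exp (log 2) := exp_le_exp.2 h2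
        _ = 2 := exp_log (by norm_num)
        _ ≤ (Fintype.card (Fin 2) : ℝ) := by simp
  · push Not at hk3
    have hex : ∃ m : ℕ, k ≤ (2 * m + 3) ^ j := by
      refine ⟨k, ?_⟩
      calc k ≤ 2 * k + 3 := by omega
        _ = (2 * k + 3) ^ 1 := (pow_one _).symm
        _ ≤ (2 * k + 3) ^ j := Nat.pow_le_pow_right (by omega) hj
    set m := Nat.find hex with hm
    have hm1 : k ≤ (2 * m + 3) ^ j := Nat.find_spec hex
    have hmpos : 1 ≤ m := by
      by_contra hcon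
      have h0 : m = 0 := by omega
      rw [h0] at hm1
      have h1 : k ≤ 3 ^ j := hm1
      omega
    have hm2 : (2 * m + 1) ^ j < k := by
      have h1 := Nat.find_min hex (m := m - 1) (by omega)
      push Not at h1
      have e : 2 * (m - 1) + 3 = 2 * m + 1 := by omega
      rw [e] at h1
      exact h1
    obtain ⟨i, rfl⟩ : ∃ i, j = i + 1 := ⟨j - 1, by omega⟩
    obtain ⟨V, hV, G, g1, g2, g3, g4⟩ := power m hmpos i
    refine ⟨V, hV, G, 2 ^ m - 2, g4, g2.mono (by omega), g3.mono (by omega), ?_, ?_⟩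
    · rw [g1]
      apply Nat.pow_le_pow_left
      have hpow : 2 ≤ 2 ^ m := by
        calc 2 = 2 ^ 1 := by norm_num
          _ ≤ 2 ^ m := Nat.pow_le_pow_right (by norm_num) hmpos
      omega
    · have h1 := hroot (2 * m + 3) hm1
      rw [g1]
      have hmr : (1 : ℝ) ≤ m := by exact_mod_cast hmpos
      have hir : (0 : ℝ) ≤ i := Nat.cast_nonneg i
      have h2 : log 2 / 5 * (k : ℝ) ^ ((1 : ℝ) / (i + 1 : ℕ)) ≤ (m * (i + 1 : ℕ) : ℕ) * log 2 := by
        have h3 : log 2 / 5 * (k : ℝ) ^ ((1 : ℝ) / (i + 1 : ℕ)) ≤ log 2 / 5 * (2 * m + 3 : ℕ) :=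
          mul_le_mul_of_nonneg_left h1 (by positivity)
        have h4 : log 2 / 5 * (2 * m + 3 : ℕ) ≤ log 2 * m := by
          push_cast
          nlinarith
        have h5 : log 2 * m ≤ (m * (i + 1 : ℕ) : ℕ) * log 2 := by
          push_cast
          have : 0 ≤ (m : ℝ) * i * log 2 := by positivity
          nlinarith
        linarith
      calc exp (log 2 / 5 * (k : ℝ) ^ ((1 : ℝ) / (i + 1 : ℕ))) ≤
          exp ((m * (i + 1 : ℕ) : ℕ) * log 2) := exp_le_exp.2 h2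
        _ = 2 ^ (m * (i + 1)) := by rw [exp_nat_mul, exp_log (by norm_num)]
        _ = (((2 ^ m) ^ (i + 1) : ℕ) : ℝ) := by push_cast; rw [pow_mul]

theorem threshold (τ : ℝ) (h0 : 0 < τ) : ∃ c C : ℝ, 0 < c ∧ 0 < C ∧
    ∀ k : ℕ, 3 ≤ k →
      (∀ (V : Type) [Fintype V] (G : SimpleGraph V) (t : ℕ), TwinWidthLE G t →
        (t : ℝ) ≤ (Fintype.card V : ℝ) ^ τ → G.CliqueFree k → Gᶜ.CliqueFree k →
        log (Fintype.card V) ≤ C * (k : ℝ) ^ ((1 : ℝ) / (⌈1 / τ⌉₊ : ℝ))) ∧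
      (∃ (V : Type) (_ : Fintype V) (G : SimpleGraph V) (t : ℕ), TwinWidthLE G t ∧
        (t : ℝ) ≤ (Fintype.card V : ℝ) ^ τ ∧ G.CliqueFree k ∧ Gᶜ.CliqueFree k ∧
        c * (k : ℝ) ^ ((1 : ℝ) / (⌈1 / τ⌉₊ : ℝ)) ≤ log (Fintype.card V)) := by
  set j := ⌈1 / τ⌉₊ with hj
  have hjpos : 1 ≤ j := Nat.one_le_iff_ne_zero.2 (by
    have : 0 < j := Nat.ceil_pos.2 (by positivity)
    omega)
  have hjr : (1 : ℝ) ≤ j := by exact_mod_cast hjpos
  have hjge : 1 / τ ≤ j := Nat.le_ceil _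
  have hjlt : (j : ℝ) < 1 / τ + 1 := Nat.ceil_lt_add_one (by positivity)
  obtain ⟨C0, hC0, hup⟩ := upper j hjpos
  have hlog : 0 < log 2 := log_pos (by norm_num)
  have hlog4 : 0 < log 4 := log_pos (by norm_num)
  set δ : ℝ := 1 - τ * (j - 1) with hδ
  have hδpos : 0 < δ := by
    have : τ * (j - 1) < τ * (1 / τ) := mul_lt_mul_of_pos_left (by linarith) h0
    rw [mul_one_div, div_self h0.ne'] at this
    linarith
  refine ⟨log 2 / 5, ((j - 1) * log 4 + C0) / δ, by positivity, by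
    have : 0 ≤ ((j : ℝ) - 1) * log 4 := mul_nonneg (by linarith) hlog4.le
    positivity, ?_⟩
  intro k hk
  have hk1 : (1 : ℝ) ≤ k := by exact_mod_cast (by omega : 1 ≤ k)
  have hx : (1 : ℝ) ≤ (k : ℝ) ^ ((1 : ℝ) / j) := one_le_rpow hk1 (by positivity)
  refine ⟨?_, ?_⟩
  · intro V _ G t ht htn g1 g2
    rcases Nat.eq_zero_or_pos (Fintype.card V) with hV | hV
    · rw [hV, Nat.cast_zero, log_zero]
      have : 0 ≤ ((j : ℝ) - 1) * log 4 := mul_nonneg (by linarith) hlog4.le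
      positivity
    · have hn : (1 : ℝ) ≤ Fintype.card V := by exact_mod_cast hV
      set n : ℝ := (Fintype.card V : ℝ) with hndef
      have hnpos : 0 < n := by linarith
      have h2 := hup V G t k ht g1 g2
      rw [← hndef] at h2
      have h3 : (1 : ℝ) ≤ n ^ τ := one_le_rpow hn h0.le
      have h4 : 2 * ((t : ℝ) + 1) ≤ 4 * n ^ τ := by linarith
      have h5 : (2 * ((t : ℝ) + 1)) ^ (j - 1) ≤ (4 * n ^ τ) ^ (j - 1) :=
        pow_le_pow_left₀ (by positivity) h4 _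
      have h6 : n ≤ (4 * n ^ τ) ^ (j - 1) * exp (C0 * (k : ℝ) ^ ((1 : ℝ) / j)) :=
        h2.trans (mul_le_mul_of_nonneg_right h5 (exp_pos _).le)
      have h7 := log_le_log hnpos h6
      rw [log_mul (by positivity) (exp_pos _).ne', log_exp, log_pow,
        log_mul (by norm_num) (by positivity), log_rpow hnpos] at h7
      have e : ((j - 1 : ℕ) : ℝ) = (j : ℝ) - 1 := by
        rw [Nat.cast_sub hjpos, Nat.cast_one]
      rw [e] at h7
      have h8 : δ * log n ≤ (j - 1) * log 4 + C0 * (k : ℝ) ^ ((1 : ℝ) / j) := by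
        rw [hδ]
        linarith
      have h9 : (j - 1) * log 4 ≤ (j - 1) * log 4 * (k : ℝ) ^ ((1 : ℝ) / j) := by
        have : 0 ≤ ((j : ℝ) - 1) * log 4 := mul_nonneg (by linarith) hlog4.le
        nlinarith
      rw [div_mul_eq_mul_div, le_div_iff₀ hδpos]
      linarith
  · obtain ⟨V, hV, G, t, g1, g2, g3, g4, g5⟩ := lower j hjpos k hk
    refine ⟨V, hV, G, t, g1, ?_, g2, g3, ?_⟩
    · have h2 : ((t : ℝ) + 1) ^ j ≤ Fintype.card V := by exact_mod_cast g4
      have h3 : (1 : ℝ) ≤ Fintype.card V := by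
        have : (1 : ℝ) ≤ ((t : ℝ) + 1) ^ j := one_le_pow₀ (by
          have : (0 : ℝ) ≤ t := Nat.cast_nonneg t
          linarith)
        linarith
      have hj0 : (j : ℝ) ≠ 0 := by linarith
      have h4 : (t : ℝ) + 1 ≤ (Fintype.card V : ℝ) ^ ((1 : ℝ) / j) := by
        calc (t : ℝ) + 1 = (((t : ℝ) + 1) ^ j) ^ ((1 : ℝ) / j) := by
              rw [← rpow_natCast, ← rpow_mul (by positivity), mul_one_div, div_self hj0, rpow_one]
          _ ≤ _ := rpow_le_rpow (by positivity) h2 (by positivity)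
      have h5 : (1 : ℝ) / j ≤ τ := by
        rw [div_le_iff₀ (by linarith)]
        have := mul_le_mul_of_nonneg_left hjge h0.le
        rw [mul_one_div, div_self h0.ne'] at this
        exact this
      have h6 : (Fintype.card V : ℝ) ^ ((1 : ℝ) / j) ≤ (Fintype.card V : ℝ) ^ τ :=
        rpow_le_rpow_of_exponent_le h3 h5
      linarith
    · have := log_le_log (exp_pos _) g5
      rw [log_exp] at this
      exact this

theorem main (τ : ℝ) (hτ : 0 < τ) : ∃ c C : ℝ, 0 < c ∧ 0 < C ∧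
    ∀ k : ℕ, 3 ≤ k →
      (∀ (V : Type) [Fintype V] (G : SimpleGraph V) (t : ℕ),
        TwinWidthLE G t → G.CliqueFree k → Gᶜ.CliqueFree k →
        (Fintype.card V : ℝ) ≤ (2 * ((t : ℝ) + 1)) ^ (⌈1 / τ⌉₊ - 1) *
          Real.exp (C * (k : ℝ) ^ ((1 : ℝ) / (⌈1 / τ⌉₊ : ℝ)))) ∧
      (∀ (V : Type) [Fintype V] (G : SimpleGraph V) (t : ℕ),
        TwinWidthLE G t → (t : ℝ) ≤ (Fintype.card V : ℝ) ^ τ → G.CliqueFree k → Gᶜ.CliqueFree k →
        Real.log (Fintype.card V) ≤ C * (k : ℝ) ^ ((1 : ℝ) / (⌈1 / τ⌉₊ : ℝ))) ∧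
      (∃ (V : Type) (_ : Fintype V) (G : SimpleGraph V) (t : ℕ),
        TwinWidthLE G t ∧ (t : ℝ) ≤ (Fintype.card V : ℝ) ^ τ ∧ G.CliqueFree k ∧ Gᶜ.CliqueFree k ∧
        c * (k : ℝ) ^ ((1 : ℝ) / (⌈1 / τ⌉₊ : ℝ)) ≤ Real.log (Fintype.card V)) := by
  obtain ⟨c, C1, hc, hC1, h1⟩ := threshold τ hτ
  have hjpos : 1 ≤ ⌈1 / τ⌉₊ := Nat.one_le_iff_ne_zero.2 (by
    have : 0 < ⌈1 / τ⌉₊ := Nat.ceil_pos.2 (by positivity)
    omega)
  obtain ⟨C2, hC2, h2⟩ := upper ⌈1 / τ⌉₊ hjpos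
  refine ⟨c, max C1 C2, hc, lt_max_of_lt_left hC1, ?_⟩
  intro k hk
  have hk0 : 0 ≤ (k : ℝ) ^ ((1 : ℝ) / (⌈1 / τ⌉₊ : ℝ)) := by positivity
  refine ⟨?_, ?_, (h1 k hk).2⟩
  · intro V _ G t ht g1 g2
    refine (h2 V G t k ht g1 g2).trans ?_
    refine mul_le_mul_of_nonneg_left (exp_le_exp.2 ?_) (by positivity)
    exact mul_le_mul_of_nonneg_right (le_max_right _ _) hk0
  · intro V _ G t ht htn g1 g2
    refine ((h1 k hk).1 V G t ht htn g1 g2).trans ?_
    exact mul_le_mul_of_nonneg_right (le_max_left _ _) hk0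

end Pool.Agent.Y422.TW
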